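import Pool.Agent.TH166.DMR.Es

/-!
# Approximations: products, polynomials, analytic functions
-/

set_option autoImplicit false

open Filter Topology Finset Asymptotics

namespace Pool.Agent.TH166.DMR

section
variable {d : ℕ}

lemma Ap.mono (hd : 2 ≤ d) {M M' : ℝ} {s : ℕ → ℝ} (h : Ap d M s) (hM : M' ≤ M) : Ap d M' s := by
  obtain ⟨e, he, h⟩ := h
  exact ⟨e, he, h.mono hd (by linarith)⟩

lemma Ap.of_es2 {M : ℝ} {e : ℕ → ℝ} (he : IsES2 d e) : Ap d M e :=
  ⟨e, he, 0, le_rfl, fun n => by simp⟩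

lemma Ap.of_bd {M : ℝ} {s : ℕ → ℝ} (h : Bd d (-M) s) : Ap d M s :=
  ⟨fun _ => 0, (IsES.const 0).es2, by simpa using h⟩

lemma Ap.add {M : ℝ} {s t : ℕ → ℝ} (h : Ap d M s) (h' : Ap d M t) :
    Ap d M (fun n => s n + t n) := by
  obtain ⟨e, he, h⟩ := h
  obtain ⟨f, hf, h'⟩ := h'
  refine ⟨_, he.add hf, ?_⟩
  have h1 := h.add h'
  refine (iff_of_eq ?_).mp h1
  congr 1
  funext n
  ring

lemma Ap.shift (hd : 2 ≤ d) {M : ℝ} {s : ℕ → ℝ} (h : Ap d M s) :
    Ap d (M * d) (fun n => s (n + 1)) := by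
  obtain ⟨e, he, h⟩ := h
  refine ⟨_, he.shift hd, ?_⟩
  have h1 := h.shift
  rwa [neg_mul] at h1

/-- product with an exponential -/
lemma Ap.mul_exp {M : ℝ} {s : ℕ → ℝ} (h : Ap d M s) (ω : ℝ) :
    Ap d (M - ω) (fun n => Real.exp (ω * (d : ℝ) ^ n) * s n) := by
  obtain ⟨e, he, h⟩ := h
  refine ⟨_, (by simpa using (IsES.exp (d := d) 1 ω).es2 : IsES2 d
    (fun n => Real.exp (ω * (d : ℝ) ^ n))).mul he, ?_⟩
  have h1 := (Bd.exp (d := d) ω).mul h
  rw [show -(M - ω) = ω + -M by ring]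
  refine (iff_of_eq ?_).mp h1
  congr 1
  funext n
  ring

/-- bounded and approximable -/
def Ok (d : ℕ) (M : ℝ) (s : ℕ → ℝ) : Prop := Bd d 0 s ∧ Ap d M s

lemma Ok.add {M : ℝ} {s t : ℕ → ℝ} (h : Ok d M s) (h' : Ok d M t) :
    Ok d M (fun n => s n + t n) := ⟨h.1.add h'.1, h.2.add h'.2⟩

lemma Ok.mul (hd : 2 ≤ d) {M : ℝ} (hM : 0 ≤ M) {s t : ℕ → ℝ} (h : Ok d M s) (h' : Ok d M t) :
    Ok d M (fun n => s n * t n) := by
  refine ⟨by simpa using h.1.mul h'.1, ?_⟩
  obtain ⟨hs, e, he, h⟩ := h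
  obtain ⟨ht, f, hf, h'⟩ := h'
  refine ⟨_, he.mul hf, ?_⟩
  have hf0 : Bd d 0 f := by
    have h1 := ht.sub (h'.mono hd (by linarith : -M ≤ 0))
    simpa using h1
  have h1 := (hs.mul h').add (h.mul hf0 |>.mono hd (by simp : -M + 0 ≤ 0 + -M))
  rw [zero_add] at h1
  refine (iff_of_eq ?_).mp h1
  congr 1
  funext n
  ring

lemma Ok.const {M : ℝ} (c : ℝ) : Ok d M (fun _ => c) :=
  ⟨Bd.const c, Ap.of_es2 (IsES.const c).es2⟩

lemma Ok.mono (hd : 2 ≤ d) {M M' : ℝ} {s : ℕ → ℝ} (h : Ok d M s) (hM : M' ≤ M) : Ok d M' s :=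
  ⟨h.1, h.2.mono hd hM⟩

lemma Ok.pow (hd : 2 ≤ d) {M : ℝ} (hM : 0 ≤ M) {s : ℕ → ℝ} (h : Ok d M s) (k : ℕ) :
    Ok d M (fun n => s n ^ k) := by
  induction k with
  | zero => simpa using Ok.const (d := d) (M := M) 1
  | succ k ih =>
    simp only [pow_succ]
    exact ih.mul hd hM h

lemma Ok.prod (hd : 2 ≤ d) {M : ℝ} (hM : 0 ≤ M) {ι : Type} (S : Finset ι) {s : ι → ℕ → ℝ}
    (h : ∀ i ∈ S, Ok d M (s i)) : Ok d M (fun n => ∏ i ∈ S, s i n) := by
  classical
  induction S using Finset.induction_on with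
  | empty => simpa using Ok.const (d := d) (M := M) 1
  | insert a S ha ih =>
    simp only [prod_insert ha]
    exact (h a (mem_insert_self _ _)).mul hd hM (ih fun i hi => h i (mem_insert_of_mem hi))

lemma Ok.poly (hd : 2 ≤ d) {M : ℝ} (hM : 0 ≤ M) {s : ℕ → ℝ} (h : Ok d M s)
    (Q : Polynomial ℝ) : Ok d M (fun n => Q.eval (s n)) := by
  induction Q using Polynomial.induction_on' with
  | add p q hp hq =>
    simp only [Polynomial.eval_add]
    exact hp.add hq
  | monomial k a =>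
    simp only [Polynomial.eval_monomial]
    exact (Ok.const a).mul hd hM (h.pow hd hM k)

lemma Ap.sum {M : ℝ} {ι : Type} (S : Finset ι) {s : ι → ℕ → ℝ}
    (h : ∀ i ∈ S, Ap d M (s i)) : Ap d M (fun n => ∑ i ∈ S, s i n) := by
  classical
  induction S using Finset.induction_on with
  | empty => simpa using Ap.of_es2 (d := d) (M := M) (IsES.const 0).es2
  | insert a S ha ih =>
    simp only [sum_insert ha]
    exact (h a (mem_insert_self _ _)).add (ih fun i hi => h i (mem_insert_of_mem hi))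

/-- polynomial approximation of an analytic function -/
lemma exists_poly {φ : ℝ → ℝ} (hφ : AnalyticAt ℝ φ 0) (K : ℕ) :
    ∃ Q : Polynomial ℝ, (fun t => φ t - Q.eval t) =O[𝓝 0] (fun t => t ^ K) := by
  obtain ⟨p, hp⟩ := hφ
  refine ⟨∑ k ∈ range K, Polynomial.monomial k (p.coeff k), ?_⟩
  have h := hp.isBigO_sub_partialSum_pow K
  simp only [zero_add] at h
  refine IsBigO.trans (g := fun t : ℝ => ‖t‖ ^ K) ?_ ?_
  · refine h.congr_left fun t => ?_
    congr 1
    rw [FormalMultilinearSeries.partialSum, Polynomial.eval_finsetSum]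
    refine sum_congr rfl fun k _ => ?_
    rw [Polynomial.eval_monomial, FormalMultilinearSeries.apply_eq_pow_smul_coeff, smul_eq_mul,
      mul_comm]
  · exact IsBigO.of_bound 1 (Eventually.of_forall fun t => by simp)

/-- an analytic function of a small approximable sequence is approximable -/
lemma Ok.analytic (hd : 2 ≤ d) {M κ : ℝ} (hκ : 0 < κ) (hM : 0 ≤ M) {φ : ℝ → ℝ}
    (hφ : AnalyticAt ℝ φ 0) {t : ℕ → ℝ} (ht : Bd d (-κ) t) (h : Ap d M t) :
    Ok d M (fun n => φ (t n)) := by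
  obtain ⟨K, hK⟩ := exists_nat_ge (M / κ)
  have hK' : M ≤ K * κ := by
    rw [div_le_iff₀ hκ] at hK
    exact hK
  obtain ⟨Q, hQ⟩ := exists_poly hφ K
  have ht0 := ht.tendsto_zero hd (by linarith)
  have ht1 : Ok d M t := ⟨ht.mono hd (by linarith), h⟩
  have hQt := ht1.poly hd hM Q
  have h1 := hQ.comp_tendsto ht0
  have h2 : Bd d (-M) (fun n => φ (t n) - Q.eval (t n)) := by
    obtain ⟨c, hc⟩ := h1.bound
    obtain ⟨C, hC, ht'⟩ := ht
    refine Bd.of_eventually (C := |c| * C ^ K) ?_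
    filter_upwards [hc] with n hn
    simp only [Function.comp, Real.norm_eq_abs] at hn
    refine hn.trans ?_
    have h3 : |t n ^ K| ≤ (C * Real.exp (-κ * (d : ℝ) ^ n)) ^ K := by
      rw [abs_pow]
      exact pow_le_pow_left₀ (abs_nonneg _) (ht' n) K
    calc c * |t n ^ K| ≤ |c| * |t n ^ K| := by
          have := le_abs_self c
          have := abs_nonneg (t n ^ K)
          nlinarith
      _ ≤ |c| * (C * Real.exp (-κ * (d : ℝ) ^ n)) ^ K := by
          have := abs_nonneg c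
          nlinarith
      _ = |c| * C ^ K * Real.exp (K * (-κ * (d : ℝ) ^ n)) := by
          rw [mul_pow, ← Real.exp_nat_mul]
          ring
      _ ≤ |c| * C ^ K * Real.exp (-M * (d : ℝ) ^ n) := by
          have h5 := (dn_pos hd n).le
          have h6 : (K : ℝ) * (-κ * (d : ℝ) ^ n) ≤ -M * (d : ℝ) ^ n := by nlinarith
          exact mul_le_mul_of_nonneg_left (Real.exp_le_exp.mpr h6) (by positivity)
  have h3 := hQt.2.add (Ap.of_bd h2)
  have h4 := hQt.1.add (h2.mono hd (by linarith : -M ≤ 0))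
  refine ⟨?_, ?_⟩
  · refine (iff_of_eq ?_).mp h4
    congr 1
    funext n
    ring
  · refine (iff_of_eq ?_).mp h3
    congr 1
    funext n
    ring

lemma analytic_inv : AnalyticAt ℝ (fun t : ℝ => (1 + t)⁻¹) 0 := by
  have h1 : AnalyticAt ℝ (fun t : ℝ => 1 + t) 0 := analyticAt_const.add analyticAt_id
  exact h1.inv (by norm_num)

lemma analytic_root (p : ℝ) : AnalyticAt ℝ (fun t : ℝ => Real.exp (p * Real.log (1 + t))) 0 := by
  have h1 : AnalyticAt ℝ (fun t : ℝ => 1 + t) 0 := analyticAt_const.add analyticAt_id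
  have h2 : AnalyticAt ℝ (fun t : ℝ => Real.log (1 + t)) 0 := h1.log (by norm_num)
  exact (analyticAt_const.mul h2).rexp

end

end Pool.Agent.TH166.DMR
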