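import Mathlib

/-!
# Sequences with asymptotic expansions in the functions `exp (ω d ^ n)`
-/

set_option autoImplicit false

open Filter Topology Finset

namespace Pool.Agent.TH166.DMR

/-- `s n = O(exp (W d ^ n))`. -/
def Bd (d : ℕ) (W : ℝ) (s : ℕ → ℝ) : Prop :=
  ∃ C : ℝ, 0 ≤ C ∧ ∀ n, |s n| ≤ C * Real.exp (W * (d : ℝ) ^ n)

/-- finite exponential sums -/
def IsES (d : ℕ) (e : ℕ → ℝ) : Prop :=
  ∃ (S : Finset ℝ) (c : ℝ → ℝ), ∀ n, e n = ∑ ω ∈ S, c ω * Real.exp (ω * (d : ℝ) ^ n)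

/-- exponential sums depending on the parity of `n` -/
def IsES2 (d : ℕ) (e : ℕ → ℝ) : Prop :=
  ∀ r : ℕ, ∃ f, IsES d f ∧ ∀ n, n % 2 = r % 2 → e n = f n

/-- `s` is approximated up to `O(exp (- M d ^ n))` -/
def Ap (d : ℕ) (M : ℝ) (s : ℕ → ℝ) : Prop :=
  ∃ e, IsES2 d e ∧ Bd d (-M) (fun n => s n - e n)

section
variable {d : ℕ}

lemma dn_pos (hd : 2 ≤ d) (n : ℕ) : (0 : ℝ) < (d : ℝ) ^ n := by
  have : (0 : ℝ) < d := by exact_mod_cast (by omega : 0 < d)
  positivity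

lemma dn_tendsto (hd : 2 ≤ d) : Tendsto (fun n : ℕ => (d : ℝ) ^ n) atTop atTop :=
  tendsto_pow_atTop_atTop_of_one_lt (by exact_mod_cast (by omega : 1 < d))

lemma exp_tendsto_zero (hd : 2 ≤ d) {W : ℝ} (hW : W < 0) :
    Tendsto (fun n : ℕ => Real.exp (W * (d : ℝ) ^ n)) atTop (𝓝 0) :=
  Real.tendsto_exp_atBot.comp ((dn_tendsto hd).const_mul_atTop_of_neg hW)

lemma Bd.mono (hd : 2 ≤ d) {W W' : ℝ} {s : ℕ → ℝ} (h : Bd d W s) (hW : W ≤ W') : Bd d W' s := by
  obtain ⟨C, hC, h⟩ := h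
  refine ⟨C, hC, fun n => (h n).trans ?_⟩
  have := (dn_pos hd n).le
  gcongr

lemma Bd.add {W : ℝ} {s t : ℕ → ℝ} (h : Bd d W s) (h' : Bd d W t) :
    Bd d W (fun n => s n + t n) := by
  obtain ⟨C, hC, h⟩ := h
  obtain ⟨C', hC', h'⟩ := h'
  refine ⟨C + C', by positivity, fun n => ?_⟩
  calc |s n + t n| ≤ |s n| + |t n| := abs_add_le _ _
    _ ≤ _ := by have := h n; have := h' n; nlinarith

lemma Bd.neg {W : ℝ} {s : ℕ → ℝ} (h : Bd d W s) : Bd d W (fun n => - s n) := by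
  obtain ⟨C, hC, h⟩ := h
  exact ⟨C, hC, fun n => by simpa using h n⟩

lemma Bd.sub {W : ℝ} {s t : ℕ → ℝ} (h : Bd d W s) (h' : Bd d W t) :
    Bd d W (fun n => s n - t n) := by
  simpa [sub_eq_add_neg] using h.add h'.neg

lemma Bd.mul {W W' : ℝ} {s t : ℕ → ℝ} (h : Bd d W s) (h' : Bd d W' t) :
    Bd d (W + W') (fun n => s n * t n) := by
  obtain ⟨C, hC, h⟩ := h
  obtain ⟨C', hC', h'⟩ := h'
  refine ⟨C * C', by positivity, fun n => ?_⟩
  rw [abs_mul, add_mul, Real.exp_add]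
  calc |s n| * |t n| ≤ (C * Real.exp (W * d ^ n)) * (C' * Real.exp (W' * d ^ n)) :=
        mul_le_mul (h n) (h' n) (abs_nonneg _) (by positivity)
    _ = _ := by ring

lemma Bd.of_eventually {W C : ℝ} {s : ℕ → ℝ}
    (h : ∀ᶠ n in atTop, |s n| ≤ C * Real.exp (W * (d : ℝ) ^ n)) : Bd d W s := by
  obtain ⟨n0, hn0⟩ := eventually_atTop.mp h
  refine ⟨|C| + ∑ k ∈ range n0, |s k| * Real.exp (-(W * (d : ℝ) ^ k)), by positivity, fun n => ?_⟩
  by_cases hn : n0 ≤ n
  · refine (hn0 n hn).trans ?_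
    have h1 : C ≤ |C| := le_abs_self _
    have h2 : 0 ≤ ∑ k ∈ range n0, |s k| * Real.exp (-(W * (d : ℝ) ^ k)) := by positivity
    have h3 := Real.exp_pos (W * (d : ℝ) ^ n)
    nlinarith
  · have h1 : |s n| * Real.exp (-(W * (d : ℝ) ^ n)) ≤
        ∑ k ∈ range n0, |s k| * Real.exp (-(W * (d : ℝ) ^ k)) :=
      single_le_sum (f := fun k => |s k| * Real.exp (-(W * (d : ℝ) ^ k)))
        (fun k _ => by positivity) (mem_range.mpr (by omega))
    have h3 := Real.exp_pos (W * (d : ℝ) ^ n)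
    have h4 : |s n| = (|s n| * Real.exp (-(W * (d : ℝ) ^ n))) * Real.exp (W * (d : ℝ) ^ n) := by
      rw [mul_assoc, ← Real.exp_add]
      simp
    rw [h4]
    have h5 : 0 ≤ |C| := abs_nonneg _
    nlinarith

lemma Bd.const (c : ℝ) : Bd d 0 (fun _ => c) := ⟨|c|, abs_nonneg _, fun n => by simp⟩

lemma Bd.exp (ω : ℝ) : Bd d ω (fun n => Real.exp (ω * (d : ℝ) ^ n)) :=
  ⟨1, zero_le_one, fun n => by simp⟩

lemma Bd.shift {W : ℝ} {s : ℕ → ℝ} (h : Bd d W s) : Bd d (W * d) (fun n => s (n + 1)) := by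
  obtain ⟨C, hC, h⟩ := h
  refine ⟨C, hC, fun n => (h (n + 1)).trans (le_of_eq ?_)⟩
  congr 2
  ring

lemma Bd.tendsto_zero (hd : 2 ≤ d) {W : ℝ} (hW : W < 0) {s : ℕ → ℝ} (h : Bd d W s) :
    Tendsto s atTop (𝓝 0) := by
  obtain ⟨C, hC, h⟩ := h
  refine squeeze_zero_norm h ?_
  simpa using (exp_tendsto_zero hd hW).const_mul C

/-! ### exponential sums -/

lemma IsES.add {e f : ℕ → ℝ} (he : IsES d e) (hf : IsES d f) : IsES d (fun n => e n + f n) := by
  classical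
  obtain ⟨S, c, he⟩ := he
  obtain ⟨T, b, hf⟩ := hf
  refine ⟨S ∪ T, fun ω => (if ω ∈ S then c ω else 0) + (if ω ∈ T then b ω else 0), fun n => ?_⟩
  beta_reduce
  rw [he, hf]
  simp only [add_mul, sum_add_distrib, ite_mul, zero_mul]
  congr 1
  · rw [← sum_filter]
    congr 1
    ext ω
    simp
  · rw [← sum_filter]
    congr 1
    ext ω
    simp

lemma IsES.mul {e f : ℕ → ℝ} (he : IsES d e) (hf : IsES d f) : IsES d (fun n => e n * f n) := by
  classical
  obtain ⟨S, c, he⟩ := he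
  obtain ⟨T, b, hf⟩ := hf
  refine ⟨(S ×ˢ T).image (fun p => p.1 + p.2),
    fun ω => ∑ p ∈ (S ×ˢ T).filter (fun p => p.1 + p.2 = ω), c p.1 * b p.2, fun n => ?_⟩
  beta_reduce
  rw [he, hf, sum_mul_sum, ← sum_product']
  rw [← sum_fiberwise_of_maps_to (g := fun p : ℝ × ℝ => p.1 + p.2)
    (t := (S ×ˢ T).image (fun p => p.1 + p.2)) (fun p hp => mem_image_of_mem _ hp)]
  refine sum_congr rfl fun ω _ => ?_
  rw [sum_mul]
  refine sum_congr rfl fun p hp => ?_
  rw [← (mem_filter.mp hp).2, add_mul, Real.exp_add]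
  ring

lemma IsES.exp (c ω : ℝ) : IsES d (fun n => c * Real.exp (ω * (d : ℝ) ^ n)) :=
  ⟨{ω}, fun _ => c, fun n => by simp⟩

lemma IsES.const (c : ℝ) : IsES d (fun _ => c) := by
  simpa using IsES.exp (d := d) c 0

lemma IsES.shift (hd : 2 ≤ d) {e : ℕ → ℝ} (he : IsES d e) : IsES d (fun n => e (n + 1)) := by
  classical
  obtain ⟨S, c, he⟩ := he
  have hd0 : (d : ℝ) ≠ 0 := by
    have : (0 : ℝ) < d := by exact_mod_cast (by omega : 0 < d)
    exact this.ne'
  refine ⟨S.image (fun ω => ω * d), fun ω => c (ω / d), fun n => ?_⟩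
  beta_reduce
  rw [he, sum_image (fun a _ b _ h => mul_right_cancel₀ hd0 h)]
  refine sum_congr rfl fun ω _ => ?_
  rw [mul_div_assoc, div_self hd0, mul_one, pow_succ]
  congr 2
  ring

lemma IsES.bd (hd : 2 ≤ d) {e : ℕ → ℝ} (he : IsES d e) : ∃ W, Bd d W e := by
  classical
  obtain ⟨S, c, he⟩ := he
  have h : ∀ T : Finset ℝ, ∃ W, Bd d W (fun n => ∑ ω ∈ T, c ω * Real.exp (ω * (d : ℝ) ^ n)) := by
    intro T
    induction T using Finset.induction_on with
    | empty => exact ⟨0, by simpa using Bd.const (d := d) 0⟩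
    | insert a T ha ih =>
      obtain ⟨W, hW⟩ := ih
      refine ⟨max (0 + a) W, ?_⟩
      simp only [sum_insert ha]
      exact (((Bd.const (c a)).mul (Bd.exp a)).mono hd (le_max_left _ _)).add
        (hW.mono hd (le_max_right _ _))
  obtain ⟨W, hW⟩ := h S
  exact ⟨W, by simpa [← he] using hW⟩

/-- the alternative: small, or a leading term -/
lemma IsES.alt (hd : 2 ≤ d) {e : ℕ → ℝ} (he : IsES d e) (M : ℝ) :
    Bd d (-M) e ∨ ∃ ω, -M < ω ∧ ∃ c, c ≠ 0 ∧
      Tendsto (fun n => e n * Real.exp (-(ω * (d : ℝ) ^ n))) atTop (𝓝 c) := by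
  classical
  obtain ⟨S, c, he⟩ := he
  by_cases hS : ∃ ω ∈ S, c ω ≠ 0 ∧ -M < ω
  · right
    let S' := S.filter (fun ω => c ω ≠ 0)
    have hne : S'.Nonempty := by
      obtain ⟨ω, h1, h2, _⟩ := hS
      exact ⟨ω, mem_filter.mpr ⟨h1, h2⟩⟩
    let ω0 := S'.max' hne
    have h0 : ω0 ∈ S' := max'_mem _ _
    have h0' := mem_filter.mp h0
    refine ⟨ω0, ?_, c ω0, h0'.2, ?_⟩
    · obtain ⟨ω, h1, h2, h3⟩ := hS
      exact lt_of_lt_of_le h3 (le_max' S' ω (mem_filter.mpr ⟨h1, h2⟩))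
    · have h1 : ∀ n, e n * Real.exp (-(ω0 * (d : ℝ) ^ n)) =
          ∑ ω ∈ S, c ω * Real.exp ((ω - ω0) * (d : ℝ) ^ n) := by
        intro n
        rw [he, sum_mul]
        refine sum_congr rfl fun ω _ => ?_
        rw [mul_assoc, ← Real.exp_add]
        congr 2
        ring
      simp only [h1]
      have h2 : Tendsto (fun n : ℕ => ∑ ω ∈ S, c ω * Real.exp ((ω - ω0) * (d : ℝ) ^ n)) atTop
          (𝓝 (∑ ω ∈ S, if ω = ω0 then c ω0 else 0)) := by
        refine tendsto_finsetSum _ fun ω hω => ?_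
        by_cases h3 : ω = ω0
        · subst h3
          simp
        · rw [if_neg h3]
          by_cases h4 : c ω = 0
          · simp [h4]
          · have h5 : ω - ω0 < 0 := by
              have h6 : ω ≤ ω0 := le_max' S' ω (mem_filter.mpr ⟨hω, h4⟩)
              have h7 := lt_of_le_of_ne h6 h3
              linarith
            simpa using (exp_tendsto_zero hd h5).const_mul (c ω)
      rwa [sum_ite_eq' S ω0 (fun _ => c ω0), if_pos h0'.1] at h2
  · left
    push Not at hS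
    have h : ∀ T : Finset ℝ, T ⊆ S →
        Bd d (-M) (fun n => ∑ ω ∈ T, c ω * Real.exp (ω * (d : ℝ) ^ n)) := by
      intro T
      induction T using Finset.induction_on with
      | empty => exact fun _ => ⟨0, le_rfl, fun n => by simp⟩
      | insert a T ha ih =>
        intro hT
        have h1 := ih ((subset_insert _ _).trans hT)
        simp only [sum_insert ha]
        refine Bd.add ?_ h1
        by_cases hc : c a = 0
        · exact ⟨0, le_rfl, fun n => by simp [hc]⟩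
        · have h2 := hS a (hT (mem_insert_self _ _)) hc
          have h3 := ((Bd.const (d := d) (c a)).mul (Bd.exp a)).mono hd (by linarith : 0 + a ≤ -M)
          exact h3
    have h1 := h S (Subset.refl _)
    simpa [← he] using h1

lemma IsES.es2 {e : ℕ → ℝ} (he : IsES d e) : IsES2 d e := fun _ => ⟨e, he, fun _ _ => rfl⟩

lemma IsES2.add {e f : ℕ → ℝ} (he : IsES2 d e) (hf : IsES2 d f) :
    IsES2 d (fun n => e n + f n) := by
  intro r
  obtain ⟨e', he', h1⟩ := he r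
  obtain ⟨f', hf', h2⟩ := hf r
  exact ⟨_, he'.add hf', fun n hn => by simp [h1 n hn, h2 n hn]⟩

lemma IsES2.mul {e f : ℕ → ℝ} (he : IsES2 d e) (hf : IsES2 d f) :
    IsES2 d (fun n => e n * f n) := by
  intro r
  obtain ⟨e', he', h1⟩ := he r
  obtain ⟨f', hf', h2⟩ := hf r
  exact ⟨_, he'.mul hf', fun n hn => by simp [h1 n hn, h2 n hn]⟩

lemma IsES2.shift (hd : 2 ≤ d) {e : ℕ → ℝ} (he : IsES2 d e) : IsES2 d (fun n => e (n + 1)) := by
  intro r
  obtain ⟨e', he', h1⟩ := he (r + 1)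
  exact ⟨_, he'.shift hd, fun n hn => h1 (n + 1) (by omega)⟩

/-- sequences of period two -/
lemma IsES2.periodic {s : ℕ → ℝ} (hs : ∀ n, s (n + 2) = s n) : IsES2 d s := by
  have h : ∀ k r, s (r + 2 * k) = s r := by
    intro k r
    induction k with
    | zero => rfl
    | succ k ih => rw [mul_add, mul_one, ← add_assoc, hs, ih]
  intro r
  refine ⟨_, IsES.const (s (r % 2)), fun n hn => ?_⟩
  have h1 : n = n % 2 + 2 * (n / 2) := (Nat.mod_add_div n 2).symm
  rw [h1, h, hn]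

lemma IsES2.bd (hd : 2 ≤ d) {e : ℕ → ℝ} (he : IsES2 d e) : ∃ W, Bd d W e := by
  obtain ⟨f, hf, h1⟩ := he 0
  obtain ⟨g, hg, h2⟩ := he 1
  obtain ⟨W, C, hC, hW⟩ := hf.bd hd
  obtain ⟨V, D, hD, hV⟩ := hg.bd hd
  refine ⟨max W V, C + D, by positivity, fun n => ?_⟩
  have hdn := (dn_pos hd n).le
  have hm1 : Real.exp (W * (d : ℝ) ^ n) ≤ Real.exp (max W V * (d : ℝ) ^ n) := by
    gcongr
    exact le_max_left _ _
  have hm2 : Real.exp (V * (d : ℝ) ^ n) ≤ Real.exp (max W V * (d : ℝ) ^ n) := by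
    gcongr
    exact le_max_right _ _
  have h0 := Real.exp_pos (max W V * (d : ℝ) ^ n)
  rcases Nat.mod_two_eq_zero_or_one n with hn | hn
  · rw [h1 n (by simpa using hn)]
    have := hW n
    nlinarith
  · rw [h2 n (by simpa using hn)]
    have := hV n
    nlinarith

end

end Pool.Agent.TH166.DMR
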