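import Pool.Agent.TH166.DMR.Orb

/-!
# Dominated orbits: asymptotic expansions of all polynomials
-/

set_option autoImplicit false

open Filter Topology Finset Asymptotics

namespace Pool.Agent.TH166.DMR

section
variable {d : ℕ} {ι : Type} [Fintype ι]

/-- normal form of a sequence of vectors: signs, constants, leading exponents, errors -/
structure Nf (d : ℕ) (κ : ℝ) (x : ℕ → ι → ℝ) (b : ι → ℝ) (c : ι → ℕ → ℝ) (E : ι → ℕ → ℝ) :
    Prop where
  c_ne : ∀ i n, c i n ≠ 0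
  c_per : ∀ i n, c i (n + 2) = c i n
  eq : ∀ n i, x n i = c i n * Real.exp (b i * (d : ℝ) ^ n + E i n)
  E_bd : ∀ i, Bd d (-κ) (E i)

variable {κ : ℝ} {x : ℕ → ι → ℝ} {b : ι → ℝ} {c : ι → ℕ → ℝ} {E : ι → ℕ → ℝ}

/-- Laurent monomials -/
lemma Nf.mono_eq (h : Nf d κ x b c E) (m : ι → ℤ) (n : ℕ) :
    ∏ j, x n j ^ m j = (∏ j, c j n ^ m j) * (Real.exp ((∑ j, m j * b j) * (d : ℝ) ^ n) *
      Real.exp (∑ j, m j * E j n)) := by
  have h1 : ∀ j, x n j ^ m j = c j n ^ m j *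
      Real.exp (m j * b j * (d : ℝ) ^ n + m j * E j n) := by
    intro j
    rw [h.eq, mul_zpow, ← Real.rpow_intCast (Real.exp _), ← Real.exp_mul]
    congr 2
    ring
  simp only [h1]
  rw [prod_mul_distrib, ← Real.exp_sum, sum_add_distrib, ← sum_mul, Real.exp_add]

lemma Nf.lin_bd (h : Nf d κ x b c E) (m : ι → ℤ) : Bd d (-κ) (fun n => ∑ j, m j * E j n) :=
  Bd.sum _ fun j _ => (h.E_bd j).const_mul _

lemma Nf.per (h : Nf d κ x b c E) (m : ι → ℤ) (n : ℕ) :
    ∏ j, c j (n + 2) ^ m j = ∏ j, c j n ^ m j := by simp only [h.c_per]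

lemma Ap.const_mul {M : ℝ} (a : ℝ) {s : ℕ → ℝ} (h : Ap d M s) : Ap d M (fun n => a * s n) := by
  obtain ⟨e, he, h⟩ := h
  refine ⟨_, (IsES.const (d := d) a).es2.mul he, ?_⟩
  have h1 := h.const_mul a
  refine (iff_of_eq ?_).mp h1
  congr 1
  funext n
  ring

/-- product of an approximable sequence with a sequence of period two -/
lemma Ap.mul_per {M : ℝ} {p s : ℕ → ℝ} (hp : ∀ n, p (n + 2) = p n) (h : Ap d M s) :
    Ap d M (fun n => p n * s n) := by
  obtain ⟨e, he, h⟩ := h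
  refine ⟨_, (IsES2.periodic hp).mul he, ?_⟩
  have hb : Bd d 0 p := by
    have h2 : ∀ k r, p (r + 2 * k) = p r := by
      intro k r
      induction k with
      | zero => rfl
      | succ k ih => rw [mul_add, mul_one, ← add_assoc, hp, ih]
    refine ⟨|p 0| + |p 1|, by positivity, fun n => ?_⟩
    simp only [zero_mul, Real.exp_zero, mul_one]
    have h1 : n = n % 2 + 2 * (n / 2) := (Nat.mod_add_div n 2).symm
    rw [h1, h2]
    rcases Nat.mod_two_eq_zero_or_one n with hn | hn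
    · rw [hn]
      have := abs_nonneg (p 1)
      linarith
    · rw [hn]
      have := abs_nonneg (p 0)
      linarith
  have h1 := hb.mul h
  rw [zero_add] at h1
  refine (iff_of_eq ?_).mp h1
  congr 1
  funext n
  ring

/-- approximability of Laurent monomials -/
lemma Nf.mono_ap (hd : 2 ≤ d) (hκ : 0 < κ) (h : Nf d κ x b c E) {M : ℝ} (hM : 0 ≤ M)
    (hE : ∀ j, Ap d M (E j)) (m : ι → ℤ) :
    Ap d (M - ∑ j, m j * b j) (fun n => ∏ j, x n j ^ m j) := by
  simp only [h.mono_eq m]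
  refine Ap.mul_per (h.per m) (Ap.mul_exp ?_ _)
  have h1 : Ap d M (fun n => ∑ j, m j * E j n) := Ap.sum _ fun j _ => (hE j).const_mul _
  have h2 := Ok.analytic hd hκ hM (φ := Real.exp) (analyticAt_rexp) (h.lin_bd m) h1
  exact h2.2

/-- a Laurent monomial that is `O(exp (-κ d^n))` has exponent at most `-κ` -/
lemma Nf.exp_le (hd : 2 ≤ d) (hκ : 0 < κ) (h : Nf d κ x b c E) (m : ι → ℤ)
    (hm : Bd d (-κ) (fun n => ∏ j, x n j ^ m j)) : ∑ j, m j * b j ≤ -κ := by
  by_contra hcon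
  push Not at hcon
  obtain ⟨C, hC, hm⟩ := hm
  have h0 := (h.lin_bd m).tendsto_zero hd (by linarith)
  have h1 : Tendsto (fun n => Real.exp (∑ j, m j * E j n)) atTop (𝓝 1) := by
    have := (Real.continuous_exp.tendsto 0).comp h0
    rwa [Real.exp_zero] at this
  set B := ∑ j, (m j : ℝ) * b j with hB
  let c0 : ℝ := |∏ j, c j 0 ^ m j|
  have hc0 : 0 < c0 := abs_pos.mpr (prod_ne_zero_iff.mpr fun j _ => zpow_ne_zero _ (h.c_ne j 0))
  have hper : ∀ k, ∏ j, c j (2 * k) ^ m j = ∏ j, c j 0 ^ m j := by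
    intro k
    induction k with
    | zero => rfl
    | succ k ih => rw [mul_add, mul_one, h.per m, ih]
  -- along even indices
  have h2 : ∀ k, c0 * Real.exp (∑ j, m j * E j (2 * k)) ≤
      C * Real.exp ((-κ - B) * (d : ℝ) ^ (2 * k)) := by
    intro k
    have h3 := hm (2 * k)
    beta_reduce at h3
    rw [h.mono_eq m, hper, abs_mul, abs_of_pos (by positivity : 0 <
      Real.exp (B * (d : ℝ) ^ (2 * k)) * Real.exp (∑ j, m j * E j (2 * k)))] at h3
    have h4 : Real.exp ((-κ - B) * (d : ℝ) ^ (2 * k)) * Real.exp (B * (d : ℝ) ^ (2 * k)) =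
        Real.exp (-κ * (d : ℝ) ^ (2 * k)) := by
      rw [← Real.exp_add]
      congr 1
      ring
    have h5 := Real.exp_pos (B * (d : ℝ) ^ (2 * k))
    rw [← h4] at h3
    have h6 : (c0 * Real.exp (∑ j, m j * E j (2 * k))) * Real.exp (B * (d : ℝ) ^ (2 * k)) ≤
        (C * Real.exp ((-κ - B) * (d : ℝ) ^ (2 * k))) * Real.exp (B * (d : ℝ) ^ (2 * k)) := by
      calc _ = c0 * (Real.exp (B * (d : ℝ) ^ (2 * k)) * Real.exp (∑ j, m j * E j (2 * k))) := by
            ring
        _ ≤ _ := h3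
        _ = _ := by ring
    exact le_of_mul_le_mul_right h6 h5
  have hsub : Tendsto (fun k : ℕ => 2 * k) atTop atTop :=
    tendsto_id.const_mul_atTop' (by norm_num)
  have h7 : Tendsto (fun k => c0 * Real.exp (∑ j, m j * E j (2 * k))) atTop (𝓝 (c0 * 1)) :=
    (h1.comp hsub).const_mul c0
  have h8 : Tendsto (fun k => C * Real.exp ((-κ - B) * (d : ℝ) ^ (2 * k))) atTop (𝓝 (C * 0)) :=
    ((exp_tendsto_zero hd (by linarith : -κ - B < 0)).comp hsub).const_mul C
  have h9 := le_of_tendsto_of_tendsto' h7 h8 h2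
  simp at h9
  linarith

end

end Pool.Agent.TH166.DMR
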