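import Pool.Agent.TH166.DMR.RT

/-!
# Vanishing of superexponentially small holomorphic functions in a half-plane
-/

set_option autoImplicit false

open Filter Topology Finset Asymptotics

namespace Pool.Agent.TH166.DMR

/-- a holomorphic function of exponential growth in a right half-plane which decays faster than
all exponentials on the real axis vanishes (Phragmen-Lindelof) -/
theorem vanish {f : ℂ → ℂ} {T W C : ℝ} (hf : DifferentiableOn ℂ f {t : ℂ | T < t.re})
    (hb : ∀ t : ℂ, T < t.re → ‖f t‖ ≤ C * Real.exp (W * t.re))
    (hs : ∀ M : ℝ, BdR (-M) (fun t : ℝ => f t)) : ∀ t : ℂ, T < t.re → f t = 0 := by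
  intro t0 ht0
  -- shift to a closed half-plane inside
  let T' : ℝ := (T + t0.re) / 2
  have hT' : T < T' := by simp only [T']; linarith
  have hT0 : T' < t0.re := by simp only [T']; linarith
  let g : ℂ → ℂ := fun s => f ((T' : ℂ) + s) * Complex.exp (-(W : ℂ) * ((T' : ℂ) + s))
  have hre : ∀ s : ℂ, ((T' : ℂ) + s).re = T' + s.re := fun s => by simp
  have hg : ∀ s : ℂ, 0 ≤ s.re → ‖g s‖ ≤ C := by
    intro s hs0
    simp only [g]
    rw [norm_mul, Complex.norm_exp]
    have h1 : (-(W : ℂ) * ((T' : ℂ) + s)).re = -(W * (T' + s.re)) := by simp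
    rw [h1, Real.exp_neg]
    have h2 := hb ((T' : ℂ) + s) (by rw [hre]; linarith)
    rw [hre] at h2
    have h3 := Real.exp_pos (W * (T' + s.re))
    rw [← div_eq_mul_inv, div_le_iff₀ h3]
    exact h2
  have hcl : closure {s : ℂ | 0 < s.re} = {s : ℂ | 0 ≤ s.re} := Complex.closure_setOfPred_lt_re 0
  have hdiff : DifferentiableOn ℂ g (closure {s : ℂ | 0 < s.re}) := by
    rw [hcl]
    refine DifferentiableOn.mul ?_ ?_
    · refine DifferentiableOn.comp (g := f) hf
        ((differentiableOn_const _).add differentiableOn_id) ?_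
      intro s hs0
      show T < ((T' : ℂ) + s).re
      rw [hre]
      have : 0 ≤ s.re := hs0
      linarith
    · exact ((differentiableOn_const _).mul
        ((differentiableOn_const _).add differentiableOn_id)).cexp
  have key := PhragmenLindelof.eq_zero_on_right_half_plane_of_superexponential_decay
    (f := g) hdiff.diffContOnCl
    ⟨1, by norm_num, 0, by
      refine IsBigO.of_bound C ?_
      rw [eventually_inf_principal]
      refine Eventually.of_forall fun s hs0 => ?_
      simp only [zero_mul, Real.exp_zero, norm_one, mul_one]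
      exact hg s (le_of_lt hs0)⟩
    (by
      intro n
      have h1 := hs (n + 1 - W)
      have hshift : Tendsto (fun x : ℝ => T' + x) atTop atTop :=
        tendsto_atTop_add_const_left _ _ tendsto_id
      have h2 := h1.comp_tendsto hshift
      obtain ⟨c, hc⟩ := h2.bound
      have h3 : Tendsto (fun x : ℝ => (c * Real.exp (-(n + 1) * T')) * Real.exp (-1 * x)) atTop
          (𝓝 ((c * Real.exp (-(n + 1) * T')) * 0)) :=
        (exp_tendsto (by norm_num)).const_mul _
      rw [mul_zero] at h3
      refine squeeze_zero' (Eventually.of_forall fun x => by positivity) ?_ h3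
      filter_upwards [hc] with x hx
      simp only [Function.comp] at hx
      rw [Real.norm_eq_abs, Real.abs_exp] at hx
      simp only [g]
      rw [norm_mul, Complex.norm_exp]
      have h4 : (-(W : ℂ) * ((T' : ℂ) + (x : ℂ))).re = -(W * (T' + x)) := by simp
      have h5 : f ((T' : ℂ) + (x : ℂ)) = f (((T' + x : ℝ)) : ℂ) := by push_cast; rfl
      rw [h4, h5, ← Real.exp_nat_mul]
      calc Real.exp (n * x) * (‖f (((T' + x : ℝ)) : ℂ)‖ * Real.exp (-(W * (T' + x))))
          ≤ Real.exp (n * x) * ((c * Real.exp (-(n + 1 - W) * (T' + x))) *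
              Real.exp (-(W * (T' + x)))) := by
            refine mul_le_mul_of_nonneg_left ?_ (Real.exp_pos _).le
            exact mul_le_mul_of_nonneg_right hx (Real.exp_pos _).le
        _ = c * (Real.exp (n * x) * Real.exp (-(n + 1 - W) * (T' + x)) *
              Real.exp (-(W * (T' + x)))) := by ring
        _ = c * (Real.exp (-(n + 1) * T') * Real.exp (-1 * x)) := by
            rw [← Real.exp_add, ← Real.exp_add, ← Real.exp_add]
            congr 2
            ring
        _ = _ := by ring)
    ⟨C, fun x => hg _ (by simp)⟩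
  have h1 := key (x := t0 - T') (by
    show 0 ≤ (t0 - (T' : ℂ)).re
    simp only [Complex.sub_re, Complex.ofReal_re]
    linarith)
  simp only [g, Pi.zero_apply, add_sub_cancel] at h1
  rcases mul_eq_zero.mp h1 with h2 | h2
  · exact h2
  · exact absurd h2 (Complex.exp_ne_zero _)

end Pool.Agent.TH166.DMR
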