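import Pool.Agent.TH166.DMR.Fix
import Pool.Agent.TH166.DMR.Van

/-!
# Polynomials along the extended orbit: leading term or identically zero
-/

set_option autoImplicit false

open Filter Topology Finset Asymptotics

namespace Pool.Agent.TH166.DMR

section
variable {ι α : Type} [Fintype ι] {D : Dat ι α} {T : ℝ}

lemma Dat.Adm.u_bd (hT : D.Adm T) (r : ℕ) (i : ι) : BdR (-D.κ) (fun t : ℝ => D.u r t i) := by
  refine IsBigO.of_bound (2 * D.A1) ?_
  filter_upwards [eventually_ge_atTop T] with t ht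
  have h1 := hT.u_le r (t := (t : ℂ)) (by simpa using ht) i
  rw [Complex.ofReal_re] at h1
  rw [Real.norm_eq_abs, Real.abs_exp, mul_assoc]
  exact h1

lemma Dat.Adm.lin_bd (hT : D.Adm T) (r : ℕ) (m : ι → ℤ) :
    BdR (-D.κ) (fun t : ℝ => ∑ j, (m j : ℂ) * D.u r t j) :=
  BdR.sum _ fun j _ => (hT.u_bd r j).const_mul _

lemma Dat.Adm.eps_bd (hT : D.Adm T) (r : ℕ) (i : ι) :
    BdR (-D.κ) (fun t : ℝ => D.eps r i t (D.u r t)) := by
  refine IsBigO.of_bound D.A1 ?_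
  filter_upwards [eventually_ge_atTop T] with t ht
  have h1 := D.eps_le r i (t := (t : ℂ)) (v := D.u r t)
    (by simpa using hT.1.trans ht) (fun j => hT.u_le_one r (by simpa using ht) j)
  rw [Complex.ofReal_re] at h1
  rw [Real.norm_eq_abs, Real.abs_exp]
  exact h1

lemma ofReal_exp_mul (l t : ℝ) : Complex.exp ((l : ℂ) * (t : ℂ)) = ((Real.exp (l * t) : ℝ) : ℂ) := by
  push_cast
  rfl

/-- expansions of the solution on the real axis -/
theorem Dat.Adm.u_ap (hT : D.Adm T) (k : ℕ) :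
    ∀ r j, ApR ((k + 1) * D.κ) (fun t : ℝ => D.u r t j) := by
  have hd := D.hd
  have hκ := D.hκ
  have hd1 : (2 : ℝ) ≤ D.d := by exact_mod_cast hd
  induction k with
  | zero =>
    intro r j
    have := ApR.of_bd (hT.u_bd r j)
    simpa using this
  | succ k ih =>
    intro r i
    set M : ℝ := (k + 1) * D.κ with hM
    have hk0 : (0 : ℝ) ≤ k := Nat.cast_nonneg k
    have hMκ : D.κ ≤ M := by nlinarith
    have hM0 : 0 ≤ M := by linarith
    have hdel : ApR (M + D.κ) (fun t : ℝ => D.eps r i t (D.u r t)) := by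
      unfold Dat.eps
      refine ApR.sum _ fun β hβ => ?_
      have h1 : ApR M (fun t : ℝ => ∑ j, (D.m i β j : ℂ) * D.u r t j) :=
        ApR.sum _ fun j _ => (ih r j).const_mul _
      have h2 := (OkR.analytic hκ hM0 (φ := Complex.exp)
        (analyticAt_cexp) (hT.lin_bd r (D.m i β)) h1).2
      have h3 := ((h2.mul_exp (D.l i β)).const_mul (D.A r i β)).mono
        (by have := D.hl i β hβ; linarith : M + D.κ ≤ M - D.l i β)
      refine (iff_of_eq ?_).mp h3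
      congr 1
      funext t
      rw [ofReal_exp_mul]
      ring
    have hlog := (OkR.analytic hκ (by linarith : 0 ≤ M + D.κ)
      (φ := fun t => Complex.log (1 + t))
      ((analyticAt_const.add analyticAt_id).clog (by simp))
      (hT.eps_bd r i) hdel).2
    have hsh : ApR (M + D.κ) (fun t : ℝ => D.u (r + 1) (((D.d : ℝ) * t : ℝ) : ℂ) i) :=
      ((ih (r + 1) i).shift hd).mono (by nlinarith)
    have h5 : ApR (M + D.κ) (fun t : ℝ => (1 / (D.d : ℂ)) *
        (D.u (r + 1) (((D.d : ℝ) * t : ℝ) : ℂ) i +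
          (-1) * Complex.log (1 + D.eps r i t (D.u r t)))) :=
      (hsh.add (hlog.const_mul (-1))).const_mul _
    have h7 : M + D.κ = ((k + 1 : ℕ) + 1 : ℝ) * D.κ := by
      push_cast
      rw [hM]
      ring
    rw [← h7]
    obtain ⟨e, he, hb⟩ := h5
    refine ⟨e, he, ?_⟩
    refine IsBigO.congr' hb ?_ (EventuallyEq.refl _ _)
    filter_upwards [eventually_ge_atTop T] with t ht
    congr 1
    have h8 := hT.u_eq r (t := (t : ℂ)) (by simpa using ht) i
    rw [h8, Dat.lam]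
    push_cast
    ring

/-- the extended orbit -/
noncomputable def Dat.X (D : Dat ι α) (b : ι → ℝ) (c : ι → ℕ → ℝ) (r : ℕ) (t : ℂ) (i : ι) : ℂ :=
  (c i r : ℂ) * (Complex.exp ((b i : ℂ) * t) * Complex.exp (D.u r t i))

/-- monomials along the extended orbit -/
lemma Dat.X_mono (b : ι → ℝ) (c : ι → ℕ → ℝ) (r : ℕ) (t : ℂ) (γ : ι →₀ ℕ) :
    ∏ i, D.X b c r t i ^ γ i = (∏ i, (c i r : ℂ) ^ γ i) *
      (Complex.exp ((∑ i, (γ i : ℝ) * b i : ℝ) * t) *
        Complex.exp (∑ i, ((γ i : ℤ) : ℂ) * D.u r t i)) := by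
  simp only [Dat.X, mul_pow]
  rw [prod_mul_distrib, prod_mul_distrib]
  congr 1
  have h1 : ∀ i, Complex.exp ((b i : ℂ) * t) ^ γ i = Complex.exp ((γ i : ℂ) * ((b i : ℂ) * t)) :=
    fun i => by rw [← Complex.exp_nat_mul]
  have h2 : ∀ i, Complex.exp (D.u r t i) ^ γ i = Complex.exp (((γ i : ℤ) : ℂ) * D.u r t i) :=
    fun i => by rw [← Complex.exp_nat_mul]; push_cast; rfl
  simp only [h1, h2]
  rw [← Complex.exp_sum, ← Complex.exp_sum]
  congr 2
  push_cast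
  rw [sum_mul]
  exact sum_congr rfl fun i _ => by ring

/-- a polynomial along the extended orbit -/
noncomputable def Dat.Z (D : Dat ι α) (b : ι → ℝ) (c : ι → ℕ → ℝ) (g : MvPolynomial ι ℂ) (r : ℕ)
    (t : ℂ) : ℂ := MvPolynomial.eval (D.X b c r t) g

theorem Dat.Adm.Z_ap (hT : D.Adm T) (b : ι → ℝ) (c : ι → ℕ → ℝ) (g : MvPolynomial ι ℂ) (r : ℕ)
    (M : ℝ) : ApR M (fun t : ℝ => D.Z b c g r t) := by
  have hκ := D.hκ
  simp only [Dat.Z, MvPolynomial.eval_eq', Dat.X_mono]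
  refine ApR.sum _ fun γ _ => ApR.const_mul _ (ApR.const_mul _ ?_)
  obtain ⟨k, hk⟩ := exists_nat_ge ((M + ∑ j, (γ j : ℝ) * b j) / D.κ)
  have hk' : M + ∑ j, (γ j : ℝ) * b j ≤ (k + 1) * D.κ := by
    rw [div_le_iff₀ hκ] at hk
    nlinarith
  have h1 : ApR ((k + 1) * D.κ) (fun t : ℝ => ∑ j, ((γ j : ℤ) : ℂ) * D.u r t j) :=
    ApR.sum _ fun j _ => (hT.u_ap k r j).const_mul _
  have h2 := (OkR.analytic hκ (by positivity : (0 : ℝ) ≤ (k + 1) * D.κ) (φ := Complex.exp)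
    (analyticAt_cexp) (hT.lin_bd r (fun j => (γ j : ℤ))) h1).2
  have h3 := (h2.mul_exp (∑ j, (γ j : ℝ) * b j)).mono
    (by linarith : M ≤ (k + 1) * D.κ - ∑ j, (γ j : ℝ) * b j)
  refine (iff_of_eq ?_).mp h3
  congr 1
  funext t
  rw [ofReal_exp_mul]

theorem Dat.Adm.Z_diff (hT : D.Adm T) (b : ι → ℝ) (c : ι → ℕ → ℝ) (g : MvPolynomial ι ℂ)
    (r : ℕ) : DifferentiableOn ℂ (D.Z b c g r) {t : ℂ | T < t.re} := by
  have h0 : D.Z b c g r = fun t => ∑ γ ∈ g.support, g.coeff γ * ((∏ i, (c i r : ℂ) ^ γ i) *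
      (Complex.exp ((∑ i, (γ i : ℝ) * b i : ℝ) * t) *
        Complex.exp (∑ i, ((γ i : ℤ) : ℂ) * D.u r t i))) := by
    funext t
    simp only [Dat.Z, MvPolynomial.eval_eq', Dat.X_mono]
  rw [h0]
  refine DifferentiableOn.fun_sum fun γ _ => ?_
  refine DifferentiableOn.mul (differentiableOn_const _)
    (DifferentiableOn.mul (differentiableOn_const _) (DifferentiableOn.mul ?_ ?_))
  · exact ((differentiableOn_const _).mul differentiableOn_id).cexp
  · exact (DifferentiableOn.fun_sum fun j _ =>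
      (differentiableOn_const _).mul (hT.u_diff r j)).cexp

theorem Dat.Adm.Z_le (hT : D.Adm T) (b : ι → ℝ) (c : ι → ℕ → ℝ) (g : MvPolynomial ι ℂ)
    (r : ℕ) : ∃ W C : ℝ, ∀ t : ℂ, T < t.re → ‖D.Z b c g r t‖ ≤ C * Real.exp (W * t.re) := by
  refine ⟨∑ γ ∈ g.support, |∑ i, (γ i : ℝ) * b i|,
    ∑ γ ∈ g.support, ‖g.coeff γ‖ * (‖∏ i, (c i r : ℂ) ^ γ i‖ * Real.exp (∑ i, (γ i : ℝ))),
    fun t ht => ?_⟩
  have ht0 : 0 ≤ t.re := hT.1.trans ht.le
  simp only [Dat.Z, MvPolynomial.eval_eq', Dat.X_mono]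
  refine (norm_sum_le _ _).trans ?_
  rw [sum_mul]
  refine sum_le_sum fun γ hγ => ?_
  rw [norm_mul, norm_mul, norm_mul, mul_assoc, mul_assoc]
  refine mul_le_mul_of_nonneg_left (mul_le_mul_of_nonneg_left ?_ (norm_nonneg _)) (norm_nonneg _)
  rw [mul_comm (Real.exp _)]
  refine mul_le_mul ?_ ?_ (norm_nonneg _) (Real.exp_pos _).le
  · rw [Complex.norm_exp]
    apply Real.exp_le_exp.mpr
    have h1 : (((∑ i, (γ i : ℝ) * b i : ℝ) : ℂ) * t).re = (∑ i, (γ i : ℝ) * b i) * t.re := by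
      simp
    rw [h1]
    refine mul_le_mul_of_nonneg_right ?_ ht0
    exact (le_abs_self _).trans (single_le_sum
      (f := fun γ : ι →₀ ℕ => |∑ i, (γ i : ℝ) * b i|) (fun γ _ => abs_nonneg _) hγ)
  · refine (Complex.norm_exp_le_exp_norm _).trans (Real.exp_le_exp.mpr ?_)
    refine (norm_sum_le _ _).trans (sum_le_sum fun i _ => ?_)
    rw [norm_mul]
    have h1 : ‖((γ i : ℤ) : ℂ)‖ = (γ i : ℝ) := by simp
    rw [h1]
    have h2 := hT.u_le_one r ht.le i
    have h3 : (0 : ℝ) ≤ γ i := Nat.cast_nonneg _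
    nlinarith

/-- **Leading term or identically zero.** -/
theorem Dat.Adm.dichotomy (hT : D.Adm T) (b : ι → ℝ) (c : ι → ℕ → ℝ) (g : MvPolynomial ι ℂ)
    (r : ℕ) : (∀ᶠ t : ℝ in atTop, D.Z b c g r t ≠ 0) ∨ ∀ t : ℂ, T < t.re → D.Z b c g r t = 0 := by
  rcases alternativeR (z := fun t : ℝ => D.Z b c g r t) (fun M => hT.Z_ap b c g r M) with h | h
  · exact Or.inl h
  · right
    obtain ⟨W, C, hWC⟩ := hT.Z_le b c g r
    exact vanish (hT.Z_diff b c g r) hWC h

end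

end Pool.Agent.TH166.DMR
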