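import Pool.Agent.TH166.DMR.RT

/-!
# A fixed point equation in a right half-plane
-/

set_option autoImplicit false

open Filter Topology Finset Asymptotics

namespace Pool.Agent.TH166.DMR

/-- the data of the equation
`u_r,i (t) = (u_(r+1),i (d t) - log (1 + ∑_β A_r,i,β exp (l_i,β t) exp (∑_j m_i,β,j u_r,j (t)))) / d` -/
structure Dat (ι α : Type) [Fintype ι] where
  d : ℕ
  hd : 2 ≤ d
  κ : ℝ
  hκ : 0 < κ
  S : ι → Finset α
  A : ℕ → ι → α → ℂ
  l : ι → α → ℝ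
  m : ι → α → ι → ℤ
  A0 : ℝ
  hA : ∀ r i, ∑ β ∈ S i, ‖A r i β‖ ≤ A0
  hA0 : 0 ≤ A0
  B : ℝ
  hB : ∀ i, ∀ β ∈ S i, ∑ j, |(m i β j : ℝ)| ≤ B
  hB0 : 0 ≤ B
  hl : ∀ i, ∀ β ∈ S i, l i β ≤ -κ

section
variable {ι α : Type} [Fintype ι] (D : Dat ι α)

/-- the relative error -/
noncomputable def Dat.eps (r : ℕ) (i : ι) (t : ℂ) (v : ι → ℂ) : ℂ :=
  ∑ β ∈ D.S i, D.A r i β * Complex.exp (D.l i β * t) * Complex.exp (∑ j, (D.m i β j : ℂ) * v j)

/-- the logarithmic error -/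
noncomputable def Dat.lam (r : ℕ) (i : ι) (t : ℂ) (v : ι → ℂ) : ℂ :=
  Complex.log (1 + D.eps r i t v)

/-- the constant in the estimates -/
noncomputable def Dat.A1 : ℝ := D.A0 * ((D.B + 1) * Real.exp (3 * D.B))

lemma Dat.A1_nonneg : 0 ≤ D.A1 := by
  have := D.hA0
  have := D.hB0
  unfold Dat.A1
  positivity

lemma Dat.lin_le {i : ι} {β : α} (hβ : β ∈ D.S i) {v : ι → ℂ} {δ : ℝ} (hδ : 0 ≤ δ)
    (hv : ∀ j, ‖v j‖ ≤ δ) : ‖∑ j, (D.m i β j : ℂ) * v j‖ ≤ D.B * δ := by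
  calc ‖∑ j, (D.m i β j : ℂ) * v j‖ ≤ ∑ j, ‖(D.m i β j : ℂ) * v j‖ := norm_sum_le _ _
    _ ≤ ∑ j, |(D.m i β j : ℝ)| * δ := by
      refine sum_le_sum fun j _ => ?_
      rw [norm_mul]
      refine mul_le_mul (le_of_eq ?_) (hv j) (norm_nonneg _) (abs_nonneg _)
      rw [Complex.norm_intCast]
    _ = (∑ j, |(D.m i β j : ℝ)|) * δ := by rw [sum_mul]
    _ ≤ D.B * δ := mul_le_mul_of_nonneg_right (D.hB i β hβ) hδ

lemma Dat.exp_l_le {i : ι} {β : α} (hβ : β ∈ D.S i) {t : ℂ} (ht : 0 ≤ t.re) :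
    ‖Complex.exp (D.l i β * t)‖ ≤ Real.exp (-D.κ * t.re) := by
  rw [Complex.norm_exp]
  apply Real.exp_le_exp.mpr
  have h : ((D.l i β : ℂ) * t).re = D.l i β * t.re := by simp
  rw [h]
  exact mul_le_mul_of_nonneg_right (D.hl i β hβ) ht

lemma Dat.eps_le (r : ℕ) (i : ι) {t : ℂ} (ht : 0 ≤ t.re) {v : ι → ℂ} (hv : ∀ j, ‖v j‖ ≤ 1) :
    ‖D.eps r i t v‖ ≤ D.A1 * Real.exp (-D.κ * t.re) := by
  have hB0 := D.hB0
  have hA0 := D.hA0
  have h1 : ∀ β ∈ D.S i, ‖D.A r i β * Complex.exp (D.l i β * t) *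
      Complex.exp (∑ j, (D.m i β j : ℂ) * v j)‖ ≤
      ‖D.A r i β‖ * (Real.exp (-D.κ * t.re) * Real.exp D.B) := by
    intro β hβ
    rw [norm_mul, norm_mul, mul_assoc]
    refine mul_le_mul_of_nonneg_left ?_ (norm_nonneg _)
    refine mul_le_mul (D.exp_l_le hβ ht) ?_ (norm_nonneg _) (Real.exp_pos _).le
    refine (Complex.norm_exp_le_exp_norm _).trans (Real.exp_le_exp.mpr ?_)
    have := D.lin_le hβ zero_le_one hv
    linarith
  calc ‖D.eps r i t v‖ ≤ ∑ β ∈ D.S i, ‖D.A r i β * Complex.exp (D.l i β * t) *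
      Complex.exp (∑ j, (D.m i β j : ℂ) * v j)‖ := norm_sum_le _ _
    _ ≤ ∑ β ∈ D.S i, ‖D.A r i β‖ * (Real.exp (-D.κ * t.re) * Real.exp D.B) := sum_le_sum h1
    _ = (∑ β ∈ D.S i, ‖D.A r i β‖) * (Real.exp (-D.κ * t.re) * Real.exp D.B) := by rw [sum_mul]
    _ ≤ D.A0 * (Real.exp (-D.κ * t.re) * Real.exp D.B) :=
      mul_le_mul_of_nonneg_right (D.hA r i) (by positivity)
    _ ≤ D.A1 * Real.exp (-D.κ * t.re) := by
      rw [Dat.A1]
      have h2 : Real.exp D.B ≤ (D.B + 1) * Real.exp (3 * D.B) := by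
        have h3 : Real.exp D.B ≤ Real.exp (3 * D.B) := Real.exp_le_exp.mpr (by linarith)
        have h4 := Real.exp_pos (3 * D.B)
        nlinarith
      calc D.A0 * (Real.exp (-D.κ * t.re) * Real.exp D.B)
          = (D.A0 * Real.exp (-D.κ * t.re)) * Real.exp D.B := by ring
        _ ≤ (D.A0 * Real.exp (-D.κ * t.re)) * ((D.B + 1) * Real.exp (3 * D.B)) :=
          mul_le_mul_of_nonneg_left h2 (by positivity)
        _ = _ := by ring

lemma exp_sub_le {p q : ℂ} {b δ : ℝ} (hb : 0 ≤ b) (hδ : 0 ≤ δ) (hp : ‖p‖ ≤ b) (hq : ‖q‖ ≤ b)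
    (hpq : ‖p - q‖ ≤ b * δ) :
    ‖Complex.exp p - Complex.exp q‖ ≤ (b + 1) * Real.exp (3 * b) * δ := by
  have h1 : Complex.exp p - Complex.exp q = Complex.exp q * (Complex.exp (p - q) - 1) := by
    rw [mul_sub, ← Complex.exp_add]
    congr 2
    · ring
    · ring
  have h2 : ‖Complex.exp (p - q) - 1‖ ≤ ‖p - q‖ * Real.exp ‖p - q‖ := by
    have := Complex.norm_exp_sub_sum_le_norm_mul_exp (p - q) 1
    simpa using this
  have h3 : ‖p - q‖ ≤ 2 * b := by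
    calc ‖p - q‖ ≤ ‖p‖ + ‖q‖ := norm_sub_le _ _
      _ ≤ _ := by linarith
  have h4 : ‖Complex.exp q‖ ≤ Real.exp b :=
    (Complex.norm_exp_le_exp_norm _).trans (Real.exp_le_exp.mpr hq)
  rw [h1, norm_mul]
  calc ‖Complex.exp q‖ * ‖Complex.exp (p - q) - 1‖
      ≤ Real.exp b * ((b * δ) * Real.exp (2 * b)) := by
        refine mul_le_mul h4 (h2.trans ?_) (norm_nonneg _) (Real.exp_pos _).le
        exact mul_le_mul hpq (Real.exp_le_exp.mpr h3) (Real.exp_pos _).le (by positivity)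
    _ = (b * δ) * Real.exp (3 * b) := by
      have : Real.exp (3 * b) = Real.exp b * Real.exp (2 * b) := by
        rw [← Real.exp_add]
        congr 1
        ring
      rw [this]
      ring
    _ ≤ ((b + 1) * δ) * Real.exp (3 * b) := by
      refine mul_le_mul_of_nonneg_right ?_ (Real.exp_pos _).le
      nlinarith
    _ = _ := by ring

lemma Dat.eps_sub_le (r : ℕ) (i : ι) {t : ℂ} (ht : 0 ≤ t.re) {v w : ι → ℂ}
    (hv : ∀ j, ‖v j‖ ≤ 1) (hw : ∀ j, ‖w j‖ ≤ 1) {δ : ℝ} (hδ : 0 ≤ δ)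
    (hvw : ∀ j, ‖v j - w j‖ ≤ δ) :
    ‖D.eps r i t v - D.eps r i t w‖ ≤ D.A1 * Real.exp (-D.κ * t.re) * δ := by
  have hB0 := D.hB0
  have hA0 := D.hA0
  have h0 : D.eps r i t v - D.eps r i t w = ∑ β ∈ D.S i,
      D.A r i β * Complex.exp (D.l i β * t) * (Complex.exp (∑ j, (D.m i β j : ℂ) * v j) -
        Complex.exp (∑ j, (D.m i β j : ℂ) * w j)) := by
    rw [Dat.eps, Dat.eps, ← sum_sub_distrib]
    exact sum_congr rfl fun β _ => by ring
  have h1 : ∀ β ∈ D.S i, ‖D.A r i β * Complex.exp (D.l i β * t) *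
      (Complex.exp (∑ j, (D.m i β j : ℂ) * v j) -
        Complex.exp (∑ j, (D.m i β j : ℂ) * w j))‖ ≤
      ‖D.A r i β‖ * (Real.exp (-D.κ * t.re) * ((D.B + 1) * Real.exp (3 * D.B) * δ)) := by
    intro β hβ
    rw [norm_mul, norm_mul, mul_assoc]
    refine mul_le_mul_of_nonneg_left ?_ (norm_nonneg _)
    refine mul_le_mul (D.exp_l_le hβ ht) ?_ (norm_nonneg _) (Real.exp_pos _).le
    refine exp_sub_le hB0 hδ ?_ ?_ ?_
    · simpa using D.lin_le hβ zero_le_one hv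
    · simpa using D.lin_le hβ zero_le_one hw
    · have h2 : (∑ j, (D.m i β j : ℂ) * v j) - ∑ j, (D.m i β j : ℂ) * w j =
          ∑ j, (D.m i β j : ℂ) * (v j - w j) := by
        rw [← sum_sub_distrib]
        exact sum_congr rfl fun j _ => by ring
      rw [h2]
      exact D.lin_le hβ hδ hvw
  rw [h0]
  calc _ ≤ ∑ β ∈ D.S i, ‖D.A r i β * Complex.exp (D.l i β * t) *
      (Complex.exp (∑ j, (D.m i β j : ℂ) * v j) -
        Complex.exp (∑ j, (D.m i β j : ℂ) * w j))‖ := norm_sum_le _ _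
    _ ≤ ∑ β ∈ D.S i, ‖D.A r i β‖ *
        (Real.exp (-D.κ * t.re) * ((D.B + 1) * Real.exp (3 * D.B) * δ)) := sum_le_sum h1
    _ = (∑ β ∈ D.S i, ‖D.A r i β‖) *
        (Real.exp (-D.κ * t.re) * ((D.B + 1) * Real.exp (3 * D.B) * δ)) := by rw [sum_mul]
    _ ≤ D.A0 * (Real.exp (-D.κ * t.re) * ((D.B + 1) * Real.exp (3 * D.B) * δ)) :=
      mul_le_mul_of_nonneg_right (D.hA r i) (by positivity)
    _ = _ := by
      rw [Dat.A1]
      ring

lemma log_sub_le {z w : ℂ} (hz : ‖z‖ ≤ 1 / 2) (hw : ‖w‖ ≤ 1 / 2) :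
    ‖Complex.log (1 + z) - Complex.log (1 + w)‖ ≤ 2 * ‖z - w‖ := by
  have h := (convex_closedBall (0 : ℂ) (1 / 2)).norm_image_sub_le_of_norm_hasDerivWithin_le
    (f := fun z => Complex.log (1 + z)) (f' := fun z => (1 + z)⁻¹) (C := 2) (x := w) (y := z)
    (by
      intro x hx
      have hx' : ‖x‖ < 1 := by
        have : ‖x‖ ≤ 1 / 2 := by simpa using hx
        linarith
      have h1 : HasDerivAt (fun z : ℂ => 1 + z) 1 x := (hasDerivAt_id x).const_add 1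
      have h2 := h1.clog (Complex.mem_slitPlane_of_norm_lt_one hx')
      simpa using h2.hasDerivWithinAt)
    (by
      intro x hx
      have hx' : ‖x‖ ≤ 1 / 2 := by simpa using hx
      rw [norm_inv]
      have h1 : 1 / 2 ≤ ‖1 + x‖ := by
        have := norm_sub_norm_le (1 : ℂ) (-x)
        rw [norm_neg, norm_one, sub_neg_eq_add] at this
        linarith
      rw [inv_le_comm₀ (by linarith) (by norm_num)]
      linarith)
    (by simpa using hw) (by simpa using hz)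
  exact h

variable {D} {T : ℝ}

/-- the half-plane in which everything is small -/
def Dat.Adm (D : Dat ι α) (T : ℝ) : Prop := 0 ≤ T ∧ D.A1 * Real.exp (-D.κ * T) ≤ 1 / 8

lemma Dat.exists_adm (D : Dat ι α) : ∃ T, D.Adm T := by
  have h1 : Tendsto (fun T : ℝ => D.A1 * Real.exp (-D.κ * T)) atTop (𝓝 (D.A1 * 0)) :=
    (exp_tendsto (by have := D.hκ; linarith)).const_mul _
  rw [mul_zero] at h1
  have h2 := (h1.eventually_le_const (by norm_num : (0 : ℝ) < 1 / 8)).and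
    (eventually_ge_atTop (0 : ℝ))
  obtain ⟨T, h3, h4⟩ := h2.exists
  exact ⟨T, h4, h3⟩

lemma Dat.Adm.re_le (hT : D.Adm T) {t : ℂ} (ht : T ≤ t.re) :
    D.A1 * Real.exp (-D.κ * t.re) ≤ 1 / 8 := by
  refine le_trans (mul_le_mul_of_nonneg_left (Real.exp_le_exp.mpr ?_) D.A1_nonneg) hT.2
  have := D.hκ
  nlinarith

lemma Dat.Adm.eps_le' (hT : D.Adm T) (r : ℕ) (i : ι) {t : ℂ} (ht : T ≤ t.re) {v : ι → ℂ}
    (hv : ∀ j, ‖v j‖ ≤ 1) : ‖D.eps r i t v‖ ≤ 1 / 8 :=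
  (D.eps_le r i (hT.1.trans ht) hv).trans (hT.re_le ht)

lemma Dat.Adm.lam_le (hT : D.Adm T) (r : ℕ) (i : ι) {t : ℂ} (ht : T ≤ t.re) {v : ι → ℂ}
    (hv : ∀ j, ‖v j‖ ≤ 1) : ‖D.lam r i t v‖ ≤ 2 * (D.A1 * Real.exp (-D.κ * t.re)) := by
  have h1 := hT.eps_le' r i ht hv
  have h2 := log_sub_le (z := D.eps r i t v) (w := 0) (by linarith) (by simp)
  simp only [add_zero, Complex.log_one, sub_zero] at h2
  refine h2.trans ?_
  have h3 := D.eps_le r i (hT.1.trans ht) hv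
  linarith

lemma Dat.Adm.lam_sub_le (hT : D.Adm T) (r : ℕ) (i : ι) {t : ℂ} (ht : T ≤ t.re) {v w : ι → ℂ}
    (hv : ∀ j, ‖v j‖ ≤ 1) (hw : ∀ j, ‖w j‖ ≤ 1) {δ : ℝ} (hδ : 0 ≤ δ)
    (hvw : ∀ j, ‖v j - w j‖ ≤ δ) :
    ‖D.lam r i t v - D.lam r i t w‖ ≤ 1 / 4 * δ := by
  have h1 := hT.eps_le' r i ht hv
  have h2 := hT.eps_le' r i ht hw
  have h3 := log_sub_le (z := D.eps r i t v) (w := D.eps r i t w) (by linarith) (by linarith)
  have h4 := D.eps_sub_le r i (hT.1.trans ht) hv hw hδ hvw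
  have h5 := hT.re_le ht
  refine h3.trans ?_
  nlinarith

/-- the iteration -/
noncomputable def Dat.it (D : Dat ι α) : ℕ → ℕ → ℂ → ι → ℂ
  | 0, _, _ => fun _ => 0
  | (k + 1), r, t => fun i => (Dat.it D k (r + 1) (D.d * t) i - D.lam r i t (Dat.it D k r t)) / D.d

lemma Dat.re_mul (D : Dat ι α) (t : ℂ) : ((D.d : ℂ) * t).re = D.d * t.re := by simp

lemma Dat.Adm.le_re_mul (hT : D.Adm T) {t : ℂ} (ht : T ≤ t.re) : t.re ≤ ((D.d : ℂ) * t).re := by
  rw [D.re_mul]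
  have h1 : (2 : ℝ) ≤ D.d := by exact_mod_cast D.hd
  have h2 := hT.1
  nlinarith

lemma Dat.norm_div_d (D : Dat ι α) (z : ℂ) : ‖z / (D.d : ℂ)‖ ≤ ‖z‖ / 2 := by
  rw [norm_div, Complex.norm_natCast]
  have h1 : (2 : ℝ) ≤ D.d := by exact_mod_cast D.hd
  exact div_le_div_of_nonneg_left (norm_nonneg _) (by norm_num) h1

lemma Dat.Adm.exp_le (hT : D.Adm T) {t : ℂ} (ht : T ≤ t.re) :
    Real.exp (-D.κ * ((D.d : ℂ) * t).re) ≤ Real.exp (-D.κ * t.re) := by
  apply Real.exp_le_exp.mpr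
  have h1 := hT.le_re_mul ht
  have h2 := D.hκ
  nlinarith

/-- one step of the estimate -/
lemma Dat.Adm.step_le (hT : D.Adm T) (r : ℕ) (i : ι) {t : ℂ} (ht : T ≤ t.re) {x : ℂ} {v : ι → ℂ}
    (hx : ‖x‖ ≤ 2 * (D.A1 * Real.exp (-D.κ * t.re)))
    (hv : ∀ j, ‖v j‖ ≤ 1) :
    ‖(x - D.lam r i t v) / D.d‖ ≤ 2 * (D.A1 * Real.exp (-D.κ * t.re)) := by
  refine (D.norm_div_d _).trans ?_
  have h1 := norm_sub_le x (D.lam r i t v)
  have h2 := hT.lam_le r i ht hv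
  linarith

lemma Dat.Adm.small (hT : D.Adm T) {t : ℂ} (ht : T ≤ t.re) {x : ℂ}
    (hx : ‖x‖ ≤ 2 * (D.A1 * Real.exp (-D.κ * t.re))) : ‖x‖ ≤ 1 := by
  have := hT.re_le ht
  linarith

lemma Dat.Adm.it_le (hT : D.Adm T) (k : ℕ) : ∀ (r : ℕ) {t : ℂ}, T ≤ t.re → ∀ i,
    ‖D.it k r t i‖ ≤ 2 * (D.A1 * Real.exp (-D.κ * t.re)) := by
  induction k with
  | zero =>
    intro r t ht i
    have := D.A1_nonneg
    simp only [Dat.it, norm_zero]
    positivity
  | succ k ih =>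
    intro r t ht i
    rw [Dat.it]
    have h1 := hT.le_re_mul ht
    refine hT.step_le r i ht ?_ fun j => hT.small ht (ih r ht j)
    refine (ih (r + 1) (ht.trans h1) i).trans ?_
    have h2 := hT.exp_le ht
    have h3 := D.A1_nonneg
    nlinarith

lemma Dat.Adm.it_sub_le (hT : D.Adm T) (k : ℕ) : ∀ (r : ℕ) {t : ℂ}, T ≤ t.re → ∀ i,
    ‖D.it (k + 1) r t i - D.it k r t i‖ ≤ (5 / 8 : ℝ) ^ k := by
  induction k with
  | zero =>
    intro r t ht i
    have h1 := hT.it_le 1 r ht i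
    have h2 := hT.re_le ht
    simp only [Dat.it, sub_zero, pow_zero] at h1 ⊢
    linarith
  | succ k ih =>
    intro r t ht i
    have h1 : D.it (k + 1 + 1) r t i - D.it (k + 1) r t i =
        ((D.it (k + 1) (r + 1) (D.d * t) i - D.it k (r + 1) (D.d * t) i) -
          (D.lam r i t (D.it (k + 1) r t) - D.lam r i t (D.it k r t))) / D.d := by
      rw [Dat.it, Dat.it]
      simp only []
      rw [Dat.it]
      ring
    rw [h1]
    refine (D.norm_div_d _).trans ?_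
    have h2 := ih (r + 1) (ht.trans (hT.le_re_mul ht)) i
    have h3 := hT.lam_sub_le r i ht (v := D.it (k + 1) r t) (w := D.it k r t)
      (fun j => hT.small ht (hT.it_le _ r ht j)) (fun j => hT.small ht (hT.it_le _ r ht j))
      (by positivity : (0 : ℝ) ≤ (5 / 8) ^ k) (fun j => ih r ht j)
    have h4 := norm_sub_le (D.it (k + 1) (r + 1) (D.d * t) i - D.it k (r + 1) (D.d * t) i)
      (D.lam r i t (D.it (k + 1) r t) - D.lam r i t (D.it k r t))
    rw [pow_succ]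
    linarith

/-- the solution -/
noncomputable def Dat.u (D : Dat ι α) (r : ℕ) (t : ℂ) (i : ι) : ℂ :=
  ∑' k, (D.it (k + 1) r t i - D.it k r t i)

lemma summable_geo : Summable (fun k : ℕ => (5 / 8 : ℝ) ^ k) :=
  summable_geometric_of_lt_one (by norm_num) (by norm_num)

lemma Dat.Adm.tendsto (hT : D.Adm T) (r : ℕ) {t : ℂ} (ht : T ≤ t.re) (i : ι) :
    Tendsto (fun k => D.it k r t i) atTop (𝓝 (D.u r t i)) := by
  have h1 : Summable (fun k => D.it (k + 1) r t i - D.it k r t i) :=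
    Summable.of_norm_bounded summable_geo fun k => hT.it_sub_le k r ht i
  have h2 := h1.hasSum.tendsto_sum_nat
  refine h2.congr fun k => ?_
  rw [sum_range_sub (fun k => D.it k r t i)]
  simp [Dat.it]

lemma Dat.Adm.u_le (hT : D.Adm T) (r : ℕ) {t : ℂ} (ht : T ≤ t.re) (i : ι) :
    ‖D.u r t i‖ ≤ 2 * (D.A1 * Real.exp (-D.κ * t.re)) :=
  le_of_tendsto (hT.tendsto r ht i).norm (Eventually.of_forall fun k => hT.it_le k r ht i)

lemma Dat.Adm.u_le_one (hT : D.Adm T) (r : ℕ) {t : ℂ} (ht : T ≤ t.re) (i : ι) :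
    ‖D.u r t i‖ ≤ 1 := hT.small ht (hT.u_le r ht i)

lemma Dat.Adm.u_eq (hT : D.Adm T) (r : ℕ) {t : ℂ} (ht : T ≤ t.re) (i : ι) :
    D.u r t i = (D.u (r + 1) (D.d * t) i - D.lam r i t (D.u r t)) / D.d := by
  have h1 := (tendsto_add_atTop_iff_nat 1).mpr (hT.tendsto r ht i)
  have h2 := hT.tendsto (r + 1) (ht.trans (hT.le_re_mul ht)) i
  have h3 : Tendsto (fun k => D.lam r i t (D.it k r t)) atTop (𝓝 (D.lam r i t (D.u r t))) := by
    have h4 : Tendsto (fun k => ∑ j, ‖D.it k r t j - D.u r t j‖) atTop (𝓝 0) := by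
      have h5 : Tendsto (fun k => ∑ j, ‖D.it k r t j - D.u r t j‖) atTop
          (𝓝 (∑ j : ι, ‖D.u r t j - D.u r t j‖)) :=
        tendsto_finsetSum _ fun j _ => ((hT.tendsto r ht j).sub_const _).norm
      simpa using h5
    rw [tendsto_iff_norm_sub_tendsto_zero]
    refine squeeze_zero (fun _ => norm_nonneg _) (fun k => ?_)
      (by simpa using h4.const_mul (1 / 4 : ℝ))
    refine (hT.lam_sub_le r i ht (v := D.it k r t) (w := D.u r t)
      (fun j => hT.small ht (hT.it_le _ r ht j))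
      (fun j => hT.u_le_one r ht j) (sum_nonneg fun j _ => norm_nonneg _)
      fun j => single_le_sum (f := fun j => ‖D.it k r t j - D.u r t j‖)
        (fun j _ => norm_nonneg _) (mem_univ j)).trans (le_of_eq (by norm_num))
  have h5 := (h2.sub h3).div_const (D.d : ℂ)
  refine tendsto_nhds_unique h1 (h5.congr fun k => ?_)
  rw [Dat.it]

lemma isOpen_half (T : ℝ) : IsOpen {t : ℂ | T < t.re} :=
  isOpen_lt continuous_const Complex.continuous_re

lemma Dat.eps_diff (r : ℕ) (i : ι) {v : ℂ → ι → ℂ}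
    (hv : ∀ j, DifferentiableOn ℂ (fun t => v t j) {t : ℂ | T < t.re}) :
    DifferentiableOn ℂ (fun t => D.eps r i t (v t)) {t : ℂ | T < t.re} := by
  unfold Dat.eps
  refine DifferentiableOn.fun_sum fun β _ => ?_
  refine DifferentiableOn.mul (DifferentiableOn.mul (differentiableOn_const _) ?_) ?_
  · exact ((differentiableOn_const _).mul differentiableOn_id).cexp
  · exact (DifferentiableOn.fun_sum fun j _ => (differentiableOn_const _).mul (hv j)).cexp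

lemma Dat.Adm.lam_diff (hT : D.Adm T) (r : ℕ) (i : ι) {v : ℂ → ι → ℂ}
    (hv : ∀ j, DifferentiableOn ℂ (fun t => v t j) {t : ℂ | T < t.re})
    (hv1 : ∀ t : ℂ, T < t.re → ∀ j, ‖v t j‖ ≤ 1) :
    DifferentiableOn ℂ (fun t => D.lam r i t (v t)) {t : ℂ | T < t.re} := by
  unfold Dat.lam
  refine DifferentiableOn.clog ((differentiableOn_const _).add (Dat.eps_diff r i hv)) ?_
  intro t ht
  apply Complex.mem_slitPlane_of_norm_lt_one
  have := hT.eps_le' r i (le_of_lt ht) (hv1 t ht)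
  linarith

lemma Dat.Adm.it_diff (hT : D.Adm T) (k : ℕ) : ∀ (r : ℕ) (i : ι),
    DifferentiableOn ℂ (fun t => D.it k r t i) {t : ℂ | T < t.re} := by
  induction k with
  | zero =>
    intro r i
    simp only [Dat.it]
    exact differentiableOn_const _
  | succ k ih =>
    intro r i
    simp only [Dat.it]
    refine DifferentiableOn.div_const (DifferentiableOn.sub ?_ ?_) _
    · refine DifferentiableOn.comp (g := fun t => D.it k (r + 1) t i) (ih (r + 1) i)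
        ((differentiableOn_const _).mul differentiableOn_id) ?_
      intro t ht
      exact lt_of_lt_of_le ht (hT.le_re_mul (le_of_lt ht))
    · exact hT.lam_diff r i (fun j => ih r j)
        fun t ht j => hT.small (le_of_lt ht) (hT.it_le k r (le_of_lt ht) j)

lemma Dat.Adm.u_diff (hT : D.Adm T) (r : ℕ) (i : ι) :
    DifferentiableOn ℂ (fun t => D.u r t i) {t : ℂ | T < t.re} := by
  unfold Dat.u
  refine Complex.differentiableOn_tsum_of_summable_norm summable_geo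
    (fun k => (hT.it_diff (k + 1) r i).sub (hT.it_diff k r i)) (isOpen_half T) ?_
  intro k t ht
  exact hT.it_sub_le k r (le_of_lt ht) i

lemma Dat.it_per (hA : ∀ r i β, D.A (r + 2) i β = D.A r i β) (k : ℕ) :
    ∀ r t i, D.it k (r + 2) t i = D.it k r t i := by
  induction k with
  | zero => intro r t i; rfl
  | succ k ih =>
    intro r t i
    rw [Dat.it, Dat.it]
    have h1 : D.it k (r + 2) t = D.it k r t := funext fun j => ih r t j
    have h2 : D.it k (r + 2 + 1) (D.d * t) i = D.it k (r + 1) (D.d * t) i := ih (r + 1) _ i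
    beta_reduce
    rw [h1, h2]
    have h3 : D.lam (r + 2) i t (D.it k r t) = D.lam r i t (D.it k r t) := by
      rw [Dat.lam, Dat.lam, Dat.eps, Dat.eps]
      simp only [hA]
    rw [h3]

lemma Dat.u_per (hA : ∀ r i β, D.A (r + 2) i β = D.A r i β) (r : ℕ) (t : ℂ) (i : ι) :
    D.u (r + 2) t i = D.u r t i := by
  rw [Dat.u, Dat.u]
  simp only [D.it_per hA]

/-- **uniqueness** along the orbit `t = d ^ n` -/
theorem Dat.Adm.unique (hT : D.Adm T) {E : ℕ → ι → ℂ} {n0 : ℕ}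
    (h0 : ∀ n ≥ n0, T ≤ (D.d : ℝ) ^ n) (h1 : ∀ n ≥ n0, ∀ i, ‖E n i‖ ≤ 1)
    (h2 : ∀ n ≥ n0, ∀ i, E n i = (E (n + 1) i - D.lam n i ((D.d : ℂ) ^ n) (E n)) / D.d) :
    ∀ n ≥ n0, ∀ i, E n i = D.u n ((D.d : ℂ) ^ n) i := by
  have hre : ∀ n, ((D.d : ℂ) ^ n).re = (D.d : ℝ) ^ n := by
    intro n
    rw [← Complex.ofReal_natCast, ← Complex.ofReal_pow, Complex.ofReal_re]
  have key : ∀ k : ℕ, ∀ n ≥ n0, ∀ i, ‖E n i - D.u n ((D.d : ℂ) ^ n) i‖ ≤ 2 * (5 / 8 : ℝ) ^ k := by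
    intro k
    induction k with
    | zero =>
      intro n hn i
      have h3 := h1 n hn i
      have h4 := hT.u_le_one n (t := (D.d : ℂ) ^ n) (by rw [hre]; exact h0 n hn) i
      have h5 := norm_sub_le (E n i) (D.u n ((D.d : ℂ) ^ n) i)
      rw [pow_zero]
      linarith
    | succ k ih =>
      intro n hn i
      have ht : T ≤ ((D.d : ℂ) ^ n).re := by rw [hre]; exact h0 n hn
      have h3 : E n i - D.u n ((D.d : ℂ) ^ n) i =
          ((E (n + 1) i - D.u (n + 1) ((D.d : ℂ) ^ (n + 1)) i) -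
            (D.lam n i ((D.d : ℂ) ^ n) (E n) - D.lam n i ((D.d : ℂ) ^ n)
              (D.u n ((D.d : ℂ) ^ n)))) / D.d := by
        rw [hT.u_eq n ht i, ← pow_succ']
        rw [h2 n hn i]
        ring
      rw [h3]
      refine (D.norm_div_d _).trans ?_
      have h4 := ih (n + 1) (by omega) i
      have h5 := hT.lam_sub_le n i ht (v := E n) (w := D.u n ((D.d : ℂ) ^ n)) (h1 n hn)
        (fun j => hT.u_le_one n ht j) (by positivity : (0 : ℝ) ≤ 2 * (5 / 8) ^ k)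
        (fun j => ih n hn j)
      have h6 := norm_sub_le (E (n + 1) i - D.u (n + 1) ((D.d : ℂ) ^ (n + 1)) i)
        (D.lam n i ((D.d : ℂ) ^ n) (E n) - D.lam n i ((D.d : ℂ) ^ n) (D.u n ((D.d : ℂ) ^ n)))
      rw [pow_succ (5 / 8 : ℝ) k]
      linarith
  intro n hn i
  have h3 : Tendsto (fun k : ℕ => 2 * (5 / 8 : ℝ) ^ k) atTop (𝓝 (2 * 0)) :=
    (tendsto_pow_atTop_nhds_zero_of_lt_one (by norm_num) (by norm_num)).const_mul 2
  rw [mul_zero] at h3
  have h4 : ‖E n i - D.u n ((D.d : ℂ) ^ n) i‖ ≤ 0 := ge_of_tendsto' h3 fun k => key k n hn i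
  have h5 := norm_le_zero_iff.mp h4
  exact sub_eq_zero.mp h5

end

end Pool.Agent.TH166.DMR
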