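import Mathlib

/-!
# Eventually periodic sets of times and zero loci over extension fields

The lemmas of this file are copied from the starting file `Pool/Agent/W600/DM/Red.lean`.
-/

set_option autoImplicit false
set_option linter.unusedSectionVars false

open Filter Topology

namespace Pool.Agent.TH166.DMR

/-- eventually periodic with period `M` -/
def EvPer (M : ℕ) (A : Set ℕ) : Prop := ∃ n₁, ∀ n ≥ n₁, n ∈ A ↔ n + M ∈ A


/-! ### eventually periodic sets -/

lemma EvPer.inter {M : ℕ} {A B : Set ℕ} (hA : EvPer M A) (hB : EvPer M B) : EvPer M (A ∩ B) := by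
  obtain ⟨a, ha⟩ := hA
  obtain ⟨b, hb⟩ := hB
  refine ⟨max a b, fun n hn => ?_⟩
  rw [Set.mem_inter_iff, Set.mem_inter_iff, ha n (le_trans (le_max_left _ _) hn),
    hb n (le_trans (le_max_right _ _) hn)]

lemma EvPer.univ {M : ℕ} : EvPer M Set.univ := ⟨0, fun n _ => by simp⟩

lemma EvPer.biInter {M : ℕ} {α : Type} (S : Finset α) (A : α → Set ℕ)
    (h : ∀ s ∈ S, EvPer M (A s)) : EvPer M {n | ∀ s ∈ S, n ∈ A s} := by
  classical
  induction S using Finset.induction_on with
  | empty => simpa using EvPer.univ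
  | insert a S ha ih =>
    have h1 := (h a (Finset.mem_insert_self _ _)).inter
      (ih fun s hs => h s (Finset.mem_insert_of_mem hs))
    have h2 : {n | ∀ s ∈ insert a S, n ∈ A s} = A a ∩ {n | ∀ s ∈ S, n ∈ A s} := by
      ext n
      simp [Finset.mem_insert]
    rw [h2]
    exact h1

lemma EvPer.shift {M : ℕ} {A : Set ℕ} {m : ℕ} (h : EvPer M {n | m + n ∈ A}) : EvPer M A := by
  obtain ⟨a, ha⟩ := h
  refine ⟨m + a, fun n hn => ?_⟩
  have h1 := ha (n - m) (by omega)
  simp only [Set.mem_ofPred_eq] at h1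
  have h2 : m + (n - m) = n := by omega
  have h3 : m + (n - m + M) = n + M := by omega
  rwa [h2, h3] at h1

/-- an eventually periodic set is a finite union of arithmetic progressions. -/
lemma EvPer.finite_union {M : ℕ} (hM : 1 ≤ M) {A : Set ℕ} (h : EvPer M A) :
    ∃ T : Finset (ℕ × ℕ), (∀ t ∈ T, t.2 = 0 ∨ t.2 = M) ∧
      A = {n | ∃ t ∈ T, ∃ k : ℕ, n = t.1 + t.2 * k} := by
  classical
  obtain ⟨a, ha⟩ := h
  refine ⟨((Finset.range a).filter (· ∈ A)).image (fun n => (n, 0)) ∪
    ((Finset.Ico a (a + M)).filter (· ∈ A)).image (fun n => (n, M)), fun t ht => ?_, ?_⟩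
  · rcases Finset.mem_union.mp ht with h1 | h1
    · obtain ⟨n, _, rfl⟩ := Finset.mem_image.mp h1
      exact Or.inl rfl
    · obtain ⟨n, _, rfl⟩ := Finset.mem_image.mp h1
      exact Or.inr rfl
  have key : ∀ n ≥ a, ∀ k : ℕ, n ∈ A ↔ n + M * k ∈ A := by
    intro n hn k
    induction k with
    | zero => simp
    | succ k ih =>
      rw [ih, ha (n + M * k) (le_trans hn (Nat.le_add_right _ _)), mul_add, mul_one, add_assoc]
  ext n
  simp only [Set.mem_ofPred_eq, Finset.mem_union, Finset.mem_image, Finset.mem_filter,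
    Finset.mem_range, Finset.mem_Ico]
  constructor
  · intro hn
    by_cases hna : n < a
    · exact ⟨(n, 0), Or.inl ⟨n, ⟨hna, hn⟩, rfl⟩, 0, by simp⟩
    · have hlt : (n - a) % M < M := Nat.mod_lt _ (by omega)
      have h1 : (n - a) % M + M * ((n - a) / M) = n - a := Nat.mod_add_div (n - a) M
      have h2 : n = (a + (n - a) % M) + M * ((n - a) / M) := by omega
      refine ⟨(a + (n - a) % M, M), Or.inr ⟨a + (n - a) % M, ⟨⟨by omega, by omega⟩, ?_⟩, rfl⟩,
        (n - a) / M, h2⟩
      rw [key _ (by omega) ((n - a) / M), ← h2]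
      exact hn
  · rintro ⟨t, ht | ht, k, rfl⟩
    · obtain ⟨m, ⟨_, hm⟩, rfl⟩ := ht
      simpa using hm
    · obtain ⟨m, ⟨⟨hm1, _⟩, hm⟩, rfl⟩ := ht
      exact (key m hm1 k).mp hm

/-! ### zero loci over extension fields -/

/-- zero locus of a family of complex polynomials at points over a subfield. -/
lemma descend {ι : Type} {L E : Type} [Field L] [Field E] (σ : L →+* E)
    (V : Set (MvPolynomial ι E)) : ∃ W : Set (MvPolynomial ι L), ∀ x : ι → L,
      (∀ g ∈ V, MvPolynomial.eval (fun i => σ (x i)) g = 0) ↔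
        (∀ h ∈ W, MvPolynomial.eval x h = 0) := by
  classical
  letI : Algebra L E := σ.toAlgebra
  let b := Module.Free.chooseBasis L E
  let cmp : Module.Free.ChooseBasisIndex L E → MvPolynomial ι E → MvPolynomial ι L := fun k g =>
    ∑ δ ∈ g.support, MvPolynomial.monomial δ (b.repr (MvPolynomial.coeff δ g) k)
  refine ⟨{h | ∃ g ∈ V, ∃ k, h = cmp k g}, fun x => ?_⟩
  have key : ∀ g : MvPolynomial ι E, ∀ k, b.repr (MvPolynomial.eval (fun i => σ (x i)) g) k =
      MvPolynomial.eval x (cmp k g) := by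
    intro g k
    have h1 : MvPolynomial.eval (fun i => σ (x i)) g =
        ∑ δ ∈ g.support, (δ.prod fun i e => x i ^ e) • MvPolynomial.coeff δ g := by
      rw [MvPolynomial.eval_eq]
      refine Finset.sum_congr rfl fun δ _ => ?_
      rw [Algebra.smul_def, mul_comm, RingHom.algebraMap_toAlgebra, Finsupp.prod, map_prod]
      simp only [map_pow]
    rw [h1, map_sum, Finsupp.finset_sum_apply]
    simp only [cmp, map_sum, MvPolynomial.eval_monomial]
    refine Finset.sum_congr rfl fun δ _ => ?_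
    rw [map_smul, Finsupp.smul_apply, smul_eq_mul, mul_comm]
  constructor
  · rintro h _ ⟨g, hg, k, rfl⟩
    rw [← key, h g hg]
    simp
  · intro h g hg
    rw [← b.repr.map_eq_zero_iff]
    ext k
    rw [key g k]
    exact h _ ⟨g, hg, k, rfl⟩

/-- the zero locus of any set of polynomials is the zero locus of a finite set. -/
lemma noeth {ι : Type} [Finite ι] {L : Type} [Field L] (W : Set (MvPolynomial ι L)) :
    ∃ G : Finset (MvPolynomial ι L), ∀ x : ι → L,
      (∀ h ∈ W, MvPolynomial.eval x h = 0) ↔ (∀ h ∈ G, MvPolynomial.eval x h = 0) := by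
  obtain ⟨G, hG⟩ := (isNoetherianRing_iff_ideal_fg _).mp inferInstance (Ideal.span W)
  refine ⟨G, fun x => ?_⟩
  have key : ∀ S : Set (MvPolynomial ι L), (∀ h ∈ S, MvPolynomial.eval x h = 0) ↔
      Ideal.span S ≤ RingHom.ker (MvPolynomial.eval x) := by
    intro S
    rw [Ideal.span_le]
    exact Iff.rfl
  rw [key W, ← hG]
  exact (key (G : Set (MvPolynomial ι L))).symm

/-- from all polynomials over `L` to all families of complex polynomials. -/
lemma all_families {ι : Type} [Finite ι] {L E : Type} [Field L] [Field E] (σ : L →+* E) {M : ℕ}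
    (hM : 1 ≤ M) {x : ℕ → ι → L}
    (h : ∀ P : MvPolynomial ι L, EvPer M {n | MvPolynomial.eval (x n) P = 0})
    (V : Set (MvPolynomial ι E)) :
    ∃ T : Finset (ℕ × ℕ), (∀ t ∈ T, t.2 = 0 ∨ t.2 = M) ∧
      {n : ℕ | ∀ g ∈ V, MvPolynomial.eval (fun i => σ (x n i)) g = 0} =
      {n | ∃ t ∈ T, ∃ k : ℕ, n = t.1 + t.2 * k} := by
  obtain ⟨W, hW⟩ := descend σ V
  obtain ⟨G, hG⟩ := noeth W
  have h1 : {n : ℕ | ∀ g ∈ V, MvPolynomial.eval (fun i => σ (x n i)) g = 0} =
      {n | ∀ P ∈ G, n ∈ {m : ℕ | MvPolynomial.eval (x m) P = 0}} := by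
    ext n
    simp only [Set.mem_ofPred_eq]
    rw [hW, hG]
  rw [h1]
  exact (EvPer.biInter G _ fun P _ => h P).finite_union hM


end Pool.Agent.TH166.DMR
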