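import Pool.Agent.TH166.DMR.Main
import Pool.Agent.TH166.DMR.Per

/-!
# Dominated orbits of integral points
-/

set_option autoImplicit false

open Filter Topology Finset Asymptotics

namespace Pool.Agent.TH166.DMR

section
variable {d : ℕ} {ι : Type} [Fintype ι] {κ : ℝ} {a : ι → ℝ} {P : ι → MvPolynomial ι ℝ}
  {x : ℕ → ι → ℝ}

lemma int_evper (hd : 2 ≤ d) {z : ℕ → ℝ} (hz : ∀ M, Ap d M z) (hi : ∀ n, ∃ k : ℤ, z n = k) :
    EvPer 2 {n | z n = 0} := by
  have key : ∀ r : ℕ, ∃ b : Prop, ∃ n₁ : ℕ, ∀ n ≥ n₁, n % 2 = r % 2 → (z n = 0 ↔ b) := by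
    intro r
    rcases alternative hd hz r with h | h
    · obtain ⟨n₁, h⟩ := eventually_atTop.mp h
      exact ⟨False, n₁, fun n hn hr => iff_false_intro (h n hn hr)⟩
    · obtain ⟨C, hC⟩ := h 1
      have h1 : Tendsto (fun n : ℕ => C * Real.exp (-1 * (d : ℝ) ^ n)) atTop (𝓝 (C * 0)) :=
        (exp_tendsto_zero hd (by norm_num : (-1 : ℝ) < 0)).const_mul C
      rw [mul_zero] at h1
      obtain ⟨n₁, h2⟩ := eventually_atTop.mp (h1.eventually_lt_const zero_lt_one)
      refine ⟨True, n₁, fun n hn hr => iff_true_intro ?_⟩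
      obtain ⟨k, hk⟩ := hi n
      have h3 : |z n| < 1 := (hC n hr).trans_lt (h2 n hn)
      rw [hk] at h3 ⊢
      have h4 : |k| < 1 := by exact_mod_cast h3
      have h5 : k = 0 := Int.abs_lt_one_iff.mp h4
      simp [h5]
  obtain ⟨b0, n0, h0⟩ := key 0
  obtain ⟨b1, n1, h1⟩ := key 1
  refine ⟨max n0 n1, fun n hn => ?_⟩
  have hn0 : n0 ≤ n := le_trans (le_max_left _ _) hn
  have hn1 : n1 ≤ n := le_trans (le_max_right _ _) hn
  show z n = 0 ↔ z (n + 2) = 0
  rcases Nat.mod_two_eq_zero_or_one n with h | h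
  · rw [h0 n hn0 (by simpa using h), h0 (n + 2) (by omega) (by simpa using h)]
  · rw [h1 n hn1 (by simpa using h), h1 (n + 2) (by omega) (by simpa using h)]

lemma exists_int {X : ι → ℤ} (g : MvPolynomial ι ℚ) :
    ∃ k : ℤ, ((∏ β ∈ g.support, (g.coeff β).den : ℕ) : ℚ) *
      MvPolynomial.eval (fun i => (X i : ℚ)) g = k := by
  classical
  rw [MvPolynomial.eval_eq', mul_sum]
  have h : ∀ β ∈ g.support, ∃ k : ℤ, ((∏ β ∈ g.support, (g.coeff β).den : ℕ) : ℚ) *
      (g.coeff β * ∏ i, (X i : ℚ) ^ β i) = k := by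
    intro β hβ
    obtain ⟨m, hm⟩ := dvd_prod_of_mem (fun β => (g.coeff β).den) hβ
    refine ⟨(g.coeff β).num * m * ∏ i, X i ^ β i, ?_⟩
    rw [hm]
    have h1 : ((g.coeff β).den : ℚ) * g.coeff β = (g.coeff β).num := Rat.den_mul_eq_num _
    push_cast
    calc ((g.coeff β).den : ℚ) * m * (g.coeff β * ∏ i, (X i : ℚ) ^ β i)
        = (((g.coeff β).den : ℚ) * g.coeff β) * m * ∏ i, (X i : ℚ) ^ β i := by ring
      _ = _ := by rw [h1]
  choose! k hk using h
  refine ⟨∑ β ∈ g.support, k β, ?_⟩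
  rw [Int.cast_sum]
  exact sum_congr rfl hk

theorem Orb.evper (hd : 2 ≤ d) (hκ : 0 < κ) {X : ℕ → ι → ℤ}
    (h : Orb d κ a P (fun n i => (X n i : ℝ))) (g : MvPolynomial ι ℚ) :
    EvPer 2 {n | MvPolynomial.eval (fun i => (X n i : ℚ)) g = 0} := by
  classical
  set D : ℕ := ∏ β ∈ g.support, (g.coeff β).den with hD
  have hD0 : (D : ℝ) ≠ 0 := by
    have : D ≠ 0 := prod_ne_zero_iff.mpr fun β _ => (g.coeff β).den_nz
    exact_mod_cast this
  let z : ℕ → ℝ := fun n => (D : ℝ) *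
    MvPolynomial.eval (fun i => (X n i : ℝ)) (MvPolynomial.map (algebraMap ℚ ℝ) g)
  have hmap : ∀ n, MvPolynomial.eval (fun i => (X n i : ℝ))
      (MvPolynomial.map (algebraMap ℚ ℝ) g) =
      ((MvPolynomial.eval (fun i => (X n i : ℚ)) g : ℚ) : ℝ) := by
    intro n
    rw [MvPolynomial.eval_map, MvPolynomial.eval_eq', MvPolynomial.eval₂_eq']
    push_cast
    rfl
  have h1 : {n | MvPolynomial.eval (fun i => (X n i : ℚ)) g = 0} = {n | z n = 0} := by
    ext n
    show MvPolynomial.eval (fun i => (X n i : ℚ)) g = 0 ↔ z n = 0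
    simp only [z]
    rw [hmap, mul_eq_zero]
    simp [hD0]
  rw [h1]
  refine int_evper hd (fun M => ?_) fun n => ?_
  · exact Ap.const_mul _ (h.expansion hd hκ _ M)
  · obtain ⟨k, hk⟩ := exists_int (X := X n) g
    refine ⟨k, ?_⟩
    simp only [z]
    rw [hmap]
    have h2 : ((((∏ β ∈ g.support, (g.coeff β).den : ℕ) : ℚ) *
      MvPolynomial.eval (fun i => (X n i : ℚ)) g : ℚ) : ℝ) = ((k : ℚ) : ℝ) := by rw [hk]
    push_cast at h2
    rw [hD]
    push_cast
    exact h2

lemma sign_per {s : ℕ → ℝ} {α : ℝ} (hα : α = 1 ∨ α = -1) (hs : ∀ n, s n = 1 ∨ s n = -1)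
    (h : ∀ n, s (n + 1) = α * s n ^ d) (n : ℕ) : s (n + 3) = s (n + 1) := by
  rcases Nat.even_or_odd d with he | ho
  · have h1 : ∀ n, s n ^ d = 1 := by
      intro n
      rcases hs n with h2 | h2 <;> rw [h2]
      · simp
      · exact he.neg_one_pow
    rw [h (n + 2), h n, h1, h1]
  · have h1 : ∀ n, s n ^ d = s n := by
      intro n
      rcases hs n with h2 | h2 <;> rw [h2]
      · simp
      · exact ho.neg_one_pow
    have e1 : s (n + 2) = α * s (n + 1) := by rw [h (n + 1), h1]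
    have e2 : s (n + 3) = α * s (n + 2) := by rw [h (n + 2), h1]
    rw [e2, e1]
    rcases hα with h2 | h2 <;> rw [h2] <;> ring

/-- the size of the relative monomials from one step to the next -/
theorem ratio_step (ha : ∀ i, a i ≠ 0) {n : ℕ} (hne : ∀ i, x n i ≠ 0)
    (hrec : ∀ i, x (n + 1) i = a i * x n i ^ d * (1 + del d a P x i n))
    (hsmall : ∀ i, |del d a P x i n| ≤ 1 / 2) (i : ι) (β : ι →₀ ℕ) :
    |(∏ j, x (n + 1) j ^ β j) / x (n + 1) i ^ d| ≤
      ((∏ j, (|a j| * (3 / 2)) ^ β j) * (2 / |a i|) ^ d) *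
        |(∏ j, x n j ^ β j) / x n i ^ d| ^ d := by
  have h1 : ∀ j, |x (n + 1) j| ≤ (|a j| * (3 / 2)) * |x n j| ^ d := by
    intro j
    rw [hrec j, abs_mul, abs_mul, abs_pow]
    have h2 : |1 + del d a P x j n| ≤ 3 / 2 := by
      have h3 := abs_le.mp (hsmall j)
      rw [abs_le]
      constructor <;> linarith [h3.1, h3.2]
    have h3 : 0 ≤ |a j| * |x n j| ^ d := by positivity
    nlinarith
  have hai : 0 < |a i| := abs_pos.mpr (ha i)
  have hxi : 0 < |x n i| := abs_pos.mpr (hne i)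
  have h2 : |x n i| ^ d * (|a i| / 2) ≤ |x (n + 1) i| := by
    rw [hrec i, abs_mul, abs_mul, abs_pow]
    have h2 : 1 / 2 ≤ |1 + del d a P x i n| := by
      have h3 := abs_le.mp (hsmall i)
      rw [abs_of_pos (by linarith [h3.1])]
      linarith [h3.1]
    have h3 : 0 ≤ |a i| * |x n i| ^ d := by positivity
    nlinarith
  have hxi1 : 0 < |x (n + 1) i| := lt_of_lt_of_le (by positivity) h2
  rw [abs_div, abs_prod, abs_pow, abs_div, abs_prod, abs_pow]
  simp only [abs_pow]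
  calc (∏ j, |x (n + 1) j| ^ β j) / |x (n + 1) i| ^ d
      ≤ (∏ j, ((|a j| * (3 / 2)) * |x n j| ^ d) ^ β j) / (|x n i| ^ d * (|a i| / 2)) ^ d := by
        apply div_le_div₀
        · exact prod_nonneg fun j _ => by positivity
        · exact prod_le_prod (fun j _ => by positivity)
            fun j _ => pow_le_pow_left₀ (abs_nonneg _) (h1 j) _
        · positivity
        · exact pow_le_pow_left₀ (by positivity) h2 _
    _ = _ := by
      have h3 : ∏ j, ((|a j| * (3 / 2)) * |x n j| ^ d) ^ β j =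
          (∏ j, (|a j| * (3 / 2)) ^ β j) * (∏ j, |x n j| ^ β j) ^ d := by
        rw [← prod_pow, ← prod_mul_distrib]
        refine prod_congr rfl fun j _ => ?_
        rw [mul_pow, ← pow_mul, ← pow_mul, mul_comm d]
      rw [h3, div_pow, div_pow, mul_pow, div_pow]
      generalize (∏ j, (|a j| * (3 / 2)) ^ β j) = A
      generalize (∏ j, |x n j| ^ β j) ^ d = B
      field_simp

lemma del_eq' (ha : ∀ i, a i ≠ 0) {n : ℕ} (hne : ∀ i, x n i ≠ 0) (i : ι) :
    del d a P x i n =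
      ∑ β ∈ (P i).support, ((P i).coeff β / a i) * ((∏ j, x n j ^ β j) / x n i ^ d) := by
  rw [del, MvPolynomial.eval_eq', sum_div]
  refine sum_congr rfl fun β _ => ?_
  have := ha i
  have := hne i
  field_simp

/-- **Points dominated at time zero.** -/
theorem orb_init (hd : 2 ≤ d) (ha : ∀ i, a i ≠ 0) (h0 : ∀ i, x 0 i ≠ 0)
    (hrec : ∀ n i, x (n + 1) i = a i * x n i ^ d + MvPolynomial.eval (x n) (P i))
    {K : ℝ} (hK1 : 1 ≤ K)
    (hK : ∀ i, ∀ β ∈ (P i).support, (∏ j, (|a j| * (3 / 2)) ^ β j) * (2 / |a i|) ^ d ≤ K)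
    (hS : ∀ i, ∑ β ∈ (P i).support, |(P i).coeff β / a i| ≤ K)
    (hinit : ∀ i, ∀ β ∈ (P i).support, K * |(∏ j, x 0 j ^ β j) / x 0 i ^ d| ≤ Real.exp (-1)) :
    (∀ n i, x n i ≠ 0) ∧ Orb d 1 a P (fun n => x (n + 1)) := by
  have hd1 : (1 : ℝ) ≤ d := by exact_mod_cast (by omega : 1 ≤ d)
  have hrec'' : ∀ n, (∀ i, x n i ≠ 0) → ∀ i,
      x (n + 1) i = a i * x n i ^ d * (1 + del d a P x i n) := by
    intro n hne i
    rw [hrec, del]
    have := ha i
    have := hne i
    field_simp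
  have hexp1 : Real.exp (-1) ≤ 1 / 2 := by
    have := Real.exp_neg_one_lt_d9
    linarith
  have hsm : ∀ n, (∀ i, x n i ≠ 0) → (∀ i, ∀ β ∈ (P i).support,
      K * |(∏ j, x n j ^ β j) / x n i ^ d| ≤ Real.exp (-1 * (d : ℝ) ^ n)) →
      ∀ i, |del d a P x i n| ≤ 1 / 2 := by
    intro n hne hr i
    rw [del_eq' ha hne]
    have hdn : (1 : ℝ) ≤ (d : ℝ) ^ n := one_le_pow₀ hd1
    have h1 : Real.exp (-1 * (d : ℝ) ^ n) ≤ Real.exp (-1) := by
      apply Real.exp_le_exp.mpr
      linarith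
    have hK0 : 0 < K := by linarith
    calc |∑ β ∈ (P i).support, ((P i).coeff β / a i) * ((∏ j, x n j ^ β j) / x n i ^ d)|
        ≤ ∑ β ∈ (P i).support, |((P i).coeff β / a i) * ((∏ j, x n j ^ β j) / x n i ^ d)| :=
          abs_sum_le_sum_abs _ _
      _ ≤ ∑ β ∈ (P i).support, |(P i).coeff β / a i| * (Real.exp (-1) / K) := by
          refine sum_le_sum fun β hβ => ?_
          rw [abs_mul]
          refine mul_le_mul_of_nonneg_left ?_ (abs_nonneg _)
          rw [le_div_iff₀ hK0]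
          have := hr i β hβ
          linarith
      _ = (∑ β ∈ (P i).support, |(P i).coeff β / a i|) * (Real.exp (-1) / K) := by
          rw [sum_mul]
      _ ≤ K * (Real.exp (-1) / K) :=
          mul_le_mul_of_nonneg_right (hS i) (by positivity)
      _ = Real.exp (-1) := by field_simp
      _ ≤ 1 / 2 := hexp1
  have key : ∀ n, (∀ i, x n i ≠ 0) ∧ ∀ i, ∀ β ∈ (P i).support,
      K * |(∏ j, x n j ^ β j) / x n i ^ d| ≤ Real.exp (-1 * (d : ℝ) ^ n) := by
    intro n
    induction n with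
    | zero => exact ⟨h0, fun i β hβ => by simpa using hinit i β hβ⟩
    | succ n ih =>
      obtain ⟨hne, hr⟩ := ih
      have hs := hsm n hne hr
      refine ⟨fun i => ?_, fun i β hβ => ?_⟩
      · rw [hrec'' n hne]
        have h1 := abs_le.mp (hs i)
        exact mul_ne_zero (mul_ne_zero (ha i) (pow_ne_zero _ (hne i))) (by linarith [h1.1])
      · have h1 := ratio_step ha hne (hrec'' n hne) hs i β
        have h2 := hK i β hβ
        have h3 := hr i β hβ
        set q := |(∏ j, x n j ^ β j) / x n i ^ d| with hq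
        have hq0 : 0 ≤ q ^ d := by positivity
        calc K * |(∏ j, x (n + 1) j ^ β j) / x (n + 1) i ^ d|
            ≤ K * (K * q ^ d) := by
              refine mul_le_mul_of_nonneg_left (h1.trans ?_) (by linarith)
              exact mul_le_mul_of_nonneg_right h2 hq0
          _ = K ^ 2 * q ^ d := by ring
          _ ≤ K ^ d * q ^ d := mul_le_mul_of_nonneg_right (pow_le_pow_right₀ hK1 hd) hq0
          _ = (K * q) ^ d := by rw [mul_pow]
          _ ≤ (Real.exp (-1 * (d : ℝ) ^ n)) ^ d := pow_le_pow_left₀ (by positivity) h3 d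
          _ = _ := by
            rw [← Real.exp_nat_mul]
            congr 1
            ring
  have hne : ∀ n i, x n i ≠ 0 := fun n => (key n).1
  have hsmall : ∀ n i, |del d a P x i n| ≤ 1 / 2 := fun n => hsm n (key n).1 (key n).2
  have hrec' : ∀ n i, x (n + 1) i = a i * x n i ^ d * (1 + del d a P x i n) :=
    fun n => hrec'' n (hne n)
  refine ⟨hne, ⟨fun n i => hrec (n + 1) i, fun n i => hne (n + 1) i, ha, fun i β hβ => ?_,
    fun n i => hsmall (n + 1) i, fun n i => ?_⟩⟩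
  · refine ⟨1, zero_le_one, fun n => ?_⟩
    rw [one_mul]
    have h1 := (key (n + 1)).2 i β hβ
    have h2 : |(∏ j, x (n + 1) j ^ β j) / x (n + 1) i ^ d| ≤
        K * |(∏ j, x (n + 1) j ^ β j) / x (n + 1) i ^ d| := by
      have := abs_nonneg ((∏ j, x (n + 1) j ^ β j) / x (n + 1) i ^ d)
      nlinarith
    refine (h2.trans h1).trans ?_
    apply Real.exp_le_exp.mpr
    have h3 : (d : ℝ) ^ n ≤ (d : ℝ) ^ (n + 1) := pow_le_pow_right₀ hd1 (Nat.le_succ n)
    linarith
  · have hs : ∀ n, x n i / |x n i| = 1 ∨ x n i / |x n i| = -1 := by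
      intro n
      rcases lt_or_gt_of_ne (hne n i) with h1 | h1
      · right
        rw [abs_of_neg h1]
        have := hne n i
        field_simp
      · left
        rw [abs_of_pos h1]
        exact div_self (hne n i)
    have hα : a i / |a i| = 1 ∨ a i / |a i| = -1 := by
      rcases lt_or_gt_of_ne (ha i) with h1 | h1
      · right
        rw [abs_of_neg h1]
        have := ha i
        field_simp
      · left
        rw [abs_of_pos h1]
        exact div_self (ha i)
    refine sign_per (d := d) hα hs (fun n => ?_) n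
    rw [hrec' n i, abs_mul, abs_mul, abs_pow]
    have h3 := abs_le.mp (hsmall n i)
    have h4 : 0 < 1 + del d a P x i n := by linarith [h3.1]
    rw [abs_of_pos h4, div_pow]
    have h5 := abs_ne_zero.mpr (hne n i)
    have h6 := abs_ne_zero.mpr (ha i)
    field_simp

/-- constants `K` for `orb_init` -/
lemma exists_K (d : ℕ) (a : ι → ℝ) (P : ι → MvPolynomial ι ℝ) : ∃ K : ℝ, 1 ≤ K ∧
    (∀ i, ∀ β ∈ (P i).support, (∏ j, (|a j| * (3 / 2)) ^ β j) * (2 / |a i|) ^ d ≤ K) ∧
    (∀ i, ∑ β ∈ (P i).support, |(P i).coeff β / a i| ≤ K) := by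
  classical
  refine ⟨1 + (∑ i, ∑ β ∈ (P i).support, (∏ j, (|a j| * (3 / 2)) ^ β j) * (2 / |a i|) ^ d) +
    ∑ i, ∑ β ∈ (P i).support, |(P i).coeff β / a i|, ?_, ?_, ?_⟩
  · have h1 : 0 ≤ ∑ i, ∑ β ∈ (P i).support,
        (∏ j, (|a j| * (3 / 2)) ^ β j) * (2 / |a i|) ^ d :=
      sum_nonneg fun i _ => sum_nonneg fun β _ =>
        mul_nonneg (prod_nonneg fun j _ => by positivity) (by positivity)
    have h2 : 0 ≤ ∑ i, ∑ β ∈ (P i).support, |(P i).coeff β / a i| := by positivity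
    linarith
  · intro i β hβ
    have h2 : 0 ≤ ∑ i, ∑ β ∈ (P i).support, |(P i).coeff β / a i| := by positivity
    have h3 : (∏ j, (|a j| * (3 / 2)) ^ β j) * (2 / |a i|) ^ d ≤
        ∑ β ∈ (P i).support, (∏ j, (|a j| * (3 / 2)) ^ β j) * (2 / |a i|) ^ d :=
      single_le_sum (f := fun β : ι →₀ ℕ => (∏ j, (|a j| * (3 / 2)) ^ β j) * (2 / |a i|) ^ d)
        (fun β _ => mul_nonneg (prod_nonneg fun j _ => by positivity) (by positivity)) hβ
    have h4 : ∑ β ∈ (P i).support, (∏ j, (|a j| * (3 / 2)) ^ β j) * (2 / |a i|) ^ d ≤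
        ∑ i, ∑ β ∈ (P i).support, (∏ j, (|a j| * (3 / 2)) ^ β j) * (2 / |a i|) ^ d :=
      single_le_sum (f := fun i => ∑ β ∈ (P i).support,
        (∏ j, (|a j| * (3 / 2)) ^ β j) * (2 / |a i|) ^ d)
        (fun i _ => sum_nonneg fun β _ =>
          mul_nonneg (prod_nonneg fun j _ => by positivity) (by positivity)) (mem_univ i)
    linarith
  · intro i
    have h1 : 0 ≤ ∑ i, ∑ β ∈ (P i).support,
        (∏ j, (|a j| * (3 / 2)) ^ β j) * (2 / |a i|) ^ d :=
      sum_nonneg fun i _ => sum_nonneg fun β _ =>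
        mul_nonneg (prod_nonneg fun j _ => by positivity) (by positivity)
    have h4 : ∑ β ∈ (P i).support, |(P i).coeff β / a i| ≤
        ∑ i, ∑ β ∈ (P i).support, |(P i).coeff β / a i| :=
      single_le_sum (f := fun i => ∑ β ∈ (P i).support, |(P i).coeff β / a i|)
        (fun i _ => by positivity) (mem_univ i)
    linarith

end

end Pool.Agent.TH166.DMR
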