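import Pool.Agent.TH166.DMR.Ext
import Pool.Agent.TH166.DMR.Int

/-!
# Real dominated orbits: all return sets are eventually periodic
-/

set_option autoImplicit false

open Filter Topology Finset Asymptotics

namespace Pool.Agent.TH166.DMR

section
variable {d : ℕ} {ι : Type} [Fintype ι] [DecidableEq ι] {κ : ℝ} {a : ι → ℝ}
  {P : ι → MvPolynomial ι ℝ} {x : ℕ → ι → ℝ} {b : ι → ℝ} {c : ι → ℕ → ℝ} {E : ι → ℕ → ℝ}

/-- the exponents of the relative monomials -/
def mex (d : ℕ) (i : ι) (β : ι →₀ ℕ) (j : ι) : ℤ := (β j : ℤ) - if j = i then (d : ℤ) else 0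

/-- the coefficients -/
noncomputable def coA (d : ℕ) (a : ι → ℝ) (P : ι → MvPolynomial ι ℝ) (c : ι → ℕ → ℝ) (r : ℕ)
    (i : ι) (β : ι →₀ ℕ) : ℝ := ((P i).coeff β / a i) * ∏ j, c j r ^ mex d i β j

lemma coA_per (hc : ∀ i n, c i (n + 2) = c i n) (r : ℕ) (i : ι) (β : ι →₀ ℕ) :
    coA d a P c (r + 2) i β = coA d a P c r i β := by
  simp only [coA, hc]

lemma coA_mod (hc : ∀ i n, c i (n + 2) = c i n) (r : ℕ) (i : ι) (β : ι →₀ ℕ) :
    coA d a P c r i β = coA d a P c (r % 2) i β := by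
  have h : ∀ k r, coA d a P c (r + 2 * k) i β = coA d a P c r i β := by
    intro k r
    induction k with
    | zero => rfl
    | succ k ih => rw [mul_add, mul_one, ← add_assoc, coA_per hc, ih]
  conv_lhs => rw [← Nat.mod_add_div r 2, h]

lemma Nf.l_le (hd : 2 ≤ d) (hκ : 0 < κ) (h : Orb d κ a P x) (hN : Nf d κ x b c E) (i : ι)
    (β : ι →₀ ℕ) (hβ : β ∈ (P i).support) : ∑ j, (mex d i β j : ℝ) * b j ≤ -κ := by
  have h2 := h.dom i β hβ
  simp only [ratio_zpow (h.ne _)] at h2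
  exact hN.exp_le hd hκ _ h2

/-- the data of the fixed point equation of a dominated orbit -/
noncomputable def mkDat (hd : 2 ≤ d) (hκ : 0 < κ) (h : Orb d κ a P x) (hN : Nf d κ x b c E) :
    Dat ι (ι →₀ ℕ) where
  d := d
  hd := hd
  κ := κ
  hκ := hκ
  S := fun i => (P i).support
  A := fun r i β => (coA d a P c r i β : ℂ)
  l := fun i β => ∑ j, (mex d i β j : ℝ) * b j
  m := fun i β => mex d i β
  A0 := ∑ r ∈ range 2, ∑ i, ∑ β ∈ (P i).support, ‖(coA d a P c r i β : ℂ)‖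
  hA := by
    intro r i
    have h1 : ∀ β, coA d a P c r i β = coA d a P c (r % 2) i β := coA_mod hN.c_per r i
    simp only [h1]
    refine le_trans (single_le_sum (f := fun i => ∑ β ∈ (P i).support,
      ‖(coA d a P c (r % 2) i β : ℂ)‖) (fun i _ => sum_nonneg fun β _ => norm_nonneg _)
      (mem_univ i)) ?_
    exact single_le_sum (f := fun r => ∑ i, ∑ β ∈ (P i).support,
      ‖(coA d a P c r i β : ℂ)‖)
      (fun r _ => sum_nonneg fun i _ => sum_nonneg fun β _ => norm_nonneg _)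
      (mem_range.mpr (Nat.mod_lt _ (by norm_num)))
  hA0 := sum_nonneg fun r _ => sum_nonneg fun i _ => sum_nonneg fun β _ => norm_nonneg _
  B := ∑ i, ∑ β ∈ (P i).support, ∑ j, |(mex d i β j : ℝ)|
  hB := by
    intro i β hβ
    refine le_trans (single_le_sum (f := fun β : ι →₀ ℕ => ∑ j, |(mex d i β j : ℝ)|)
      (fun β _ => sum_nonneg fun j _ => abs_nonneg _) hβ) ?_
    exact single_le_sum (f := fun i => ∑ β ∈ (P i).support, ∑ j, |(mex d i β j : ℝ)|)
      (fun i _ => sum_nonneg fun β _ => sum_nonneg fun j _ => abs_nonneg _) (mem_univ i)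
  hB0 := sum_nonneg fun i _ => sum_nonneg fun β _ => sum_nonneg fun j _ => abs_nonneg _
  hl := fun i β hβ => hN.l_le hd hκ h i β hβ

lemma eps_del (hd : 2 ≤ d) (hκ : 0 < κ) (h : Orb d κ a P x) (hN : Nf d κ x b c E) (n : ℕ)
    (i : ι) : (mkDat hd hκ h hN).eps n i ((d : ℂ) ^ n) (fun j => (E j n : ℂ)) =
      ((del d a P x i n : ℝ) : ℂ) := by
  rw [h.del_eq i n]
  push_cast
  unfold Dat.eps
  refine sum_congr rfl fun β _ => ?_
  have h1 : (∏ j, x n j ^ β j) / x n i ^ d = (∏ j, c j n ^ mex d i β j) *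
      (Real.exp ((∑ j, (mex d i β j : ℝ) * b j) * (d : ℝ) ^ n) *
        Real.exp (∑ j, (mex d i β j : ℝ) * E j n)) := by
    rw [ratio_zpow (h.ne n)]
    exact hN.mono_eq (mex d i β) n
  have h2 : ((((∏ j, x n j ^ β j) / x n i ^ d : ℝ)) : ℂ) = (∏ j, (c j n : ℂ) ^ mex d i β j) *
      (Complex.exp ((∑ j, (mex d i β j : ℂ) * b j) * (d : ℂ) ^ n) *
        Complex.exp (∑ j, (mex d i β j : ℂ) * E j n)) := by
    rw [h1]
    push_cast
    rfl
  push_cast at h2
  rw [h2]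
  simp only [mkDat, coA]
  push_cast
  ring

/-- **Real dominated orbits are the restriction of holomorphic curves to the times `d ^ n`.** -/
theorem Orb.curve (hd : 2 ≤ d) (hκ : 0 < κ) (h : Orb d κ a P x) (hN : Nf d κ x b c E)
    (hrec : ∀ i n, E i (n + 1) = d * E i n + Real.log (1 + del d a P x i n)) {T : ℝ}
    (hT : (mkDat hd hκ h hN).Adm T) :
    ∃ n0, ∀ n ≥ n0, T < (d : ℝ) ^ n ∧ ∀ i, (x n i : ℂ) =
      (mkDat hd hκ h hN).X b c n (((d : ℝ) ^ n : ℝ) : ℂ) i := by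
  have hd1 : (2 : ℝ) ≤ d := by exact_mod_cast hd
  have hd0 : (d : ℂ) ≠ 0 := by
    have : d ≠ 0 := by omega
    exact_mod_cast this
  have h1 : ∀ᶠ n : ℕ in atTop, ∀ i, |E i n| < 1 := by
    rw [eventually_all]
    intro i
    have h2 := (hN.E_bd i).tendsto_zero hd (by linarith)
    have h3 := (Metric.tendsto_nhds.mp h2) 1 one_pos
    simpa [Real.dist_eq] using h3
  have h2 : ∀ᶠ n : ℕ in atTop, T < (d : ℝ) ^ n := (dn_tendsto hd).eventually_gt_atTop T
  obtain ⟨n0, hn0⟩ := eventually_atTop.mp (h1.and h2)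
  have key := hT.unique (E := fun n i => (E i n : ℂ)) (n0 := n0)
    (fun n hn => (hn0 n hn).2.le)
    (fun n hn i => by
      rw [Complex.norm_real, Real.norm_eq_abs]
      exact ((hn0 n hn).1 i).le)
    (by
      intro n hn i
      have h3 : (mkDat hd hκ h hN).lam n i ((d : ℂ) ^ n) (fun j => (E j n : ℂ)) =
          ((Real.log (1 + del d a P x i n) : ℝ) : ℂ) := by
        rw [Dat.lam, eps_del hd hκ h hN n i]
        have h4 := abs_le.mp (h.small n i)
        rw [Complex.ofReal_log (by linarith [h4.1])]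
        push_cast
        rfl
      show (E i n : ℂ) = ((E i (n + 1) : ℂ) - (mkDat hd hκ h hN).lam n i ((d : ℂ) ^ n)
        (fun j => (E j n : ℂ))) / (d : ℂ)
      rw [h3, hrec i n]
      push_cast
      field_simp
      ring)
  refine ⟨n0, fun n hn => ⟨(hn0 n hn).2, fun i => ?_⟩⟩
  have h3 := key n hn i
  beta_reduce at h3
  have h4 : (((d : ℝ) ^ n : ℝ) : ℂ) = (d : ℂ) ^ n := by push_cast; rfl
  rw [Dat.X, h4]
  have h5 : (mkDat hd hκ h hN).u n ((d : ℂ) ^ n) i = (E i n : ℂ) := h3.symm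
  rw [h5, ← Complex.exp_add, hN.eq n i]
  push_cast
  rfl

theorem Orb.evperC (hd : 2 ≤ d) (hκ : 0 < κ) (h : Orb d κ a P x) (g : MvPolynomial ι ℂ) :
    EvPer 2 {n | MvPolynomial.eval (fun i => (x n i : ℂ)) g = 0} := by
  obtain ⟨b, c, E, hN, hrec⟩ := h.exists_nf hd hκ
  set D := mkDat hd hκ h hN with hD
  obtain ⟨T, hT⟩ := D.exists_adm
  obtain ⟨n0, hn0⟩ := h.curve hd hκ hN hrec hT
  have hper : ∀ r t, D.X b c (r + 2) t = D.X b c r t := by
    intro r t
    funext i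
    rw [Dat.X, Dat.X, hN.c_per]
    congr 3
    refine Dat.u_per (fun r i β => ?_) r t i
    show ((coA d a P c (r + 2) i β : ℝ) : ℂ) = ((coA d a P c r i β : ℝ) : ℂ)
    rw [coA_per hN.c_per]
  have hmod : ∀ r t, D.X b c r t = D.X b c (r % 2) t := by
    intro r t
    have h1 : ∀ k r, D.X b c (r + 2 * k) t = D.X b c r t := by
      intro k r
      induction k with
      | zero => rfl
      | succ k ih => rw [mul_add, mul_one, ← add_assoc, hper, ih]
    conv_lhs => rw [← Nat.mod_add_div r 2, h1]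
  have hz : ∀ n ≥ n0, MvPolynomial.eval (fun i => (x n i : ℂ)) g =
      D.Z b c g (n % 2) (((d : ℝ) ^ n : ℝ) : ℂ) := by
    intro n hn
    rw [Dat.Z, ← hmod]
    have h1 : (fun i => (x n i : ℂ)) = D.X b c n (((d : ℝ) ^ n : ℝ) : ℂ) :=
      funext (hn0 n hn).2
    rw [h1]
  have key : ∀ r : ℕ, ∃ b : Prop, ∃ n₁ : ℕ, ∀ n ≥ n₁, n % 2 = r → 
      (MvPolynomial.eval (fun i => (x n i : ℂ)) g = 0 ↔ b) := by
    intro r
    rcases hT.dichotomy b c g r with h1 | h1
    · obtain ⟨n₁, h2⟩ := eventually_atTop.mp ((dn_tendsto hd).eventually h1)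
      refine ⟨False, max n0 n₁, fun n hn hr => iff_false_intro ?_⟩
      rw [hz n (le_trans (le_max_left _ _) hn), hr]
      exact h2 n (le_trans (le_max_right _ _) hn)
    · refine ⟨True, n0, fun n hn hr => iff_true_intro ?_⟩
      rw [hz n hn, hr]
      exact h1 _ (by rw [Complex.ofReal_re]; exact (hn0 n hn).1)
  obtain ⟨b0, m0, h0⟩ := key 0
  obtain ⟨b1, m1, h1⟩ := key 1
  refine ⟨max m0 m1, fun n hn => ?_⟩
  have hn0' : m0 ≤ n := le_trans (le_max_left _ _) hn
  have hn1' : m1 ≤ n := le_trans (le_max_right _ _) hn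
  show MvPolynomial.eval (fun i => (x n i : ℂ)) g = 0 ↔
    MvPolynomial.eval (fun i => (x (n + 2) i : ℂ)) g = 0
  rcases Nat.mod_two_eq_zero_or_one n with h2 | h2
  · rw [h0 n hn0' h2, h0 (n + 2) (by omega) (by omega)]
  · rw [h1 n hn1' h2, h1 (n + 2) (by omega) (by omega)]

end

end Pool.Agent.TH166.DMR
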