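import Pool.Agent.TH166.DMR.Exp

/-!
# Dominated orbits: the expansion theorem and the alternative
-/

set_option autoImplicit false

open Filter Topology Finset Asymptotics

namespace Pool.Agent.TH166.DMR

section
variable {d : ℕ} {ι : Type} [Fintype ι] {κ : ℝ} {a : ι → ℝ} {P : ι → MvPolynomial ι ℝ}
  {x : ℕ → ι → ℝ}

lemma ratio_zpow [DecidableEq ι] {z : ι → ℝ} (hz : ∀ i, z i ≠ 0) (β : ι →₀ ℕ) (i : ι) :
    (∏ j, z j ^ β j) / z i ^ d = ∏ j, z j ^ ((β j : ℤ) - if j = i then (d : ℤ) else 0) := by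
  have h1 : ∀ j, z j ^ ((β j : ℤ) - if j = i then (d : ℤ) else 0) =
      z j ^ β j / (if j = i then z i ^ d else 1) := by
    intro j
    rw [zpow_sub₀ (hz j), zpow_natCast]
    congr 1
    split_ifs with h
    · rw [h, zpow_natCast]
    · rw [zpow_zero]
  simp only [h1]
  rw [prod_div_distrib, prod_ite_eq' univ i (fun _ => z i ^ d), if_pos (mem_univ _)]

theorem Orb.exists_nf (hd : 2 ≤ d) (hκ : 0 < κ) (h : Orb d κ a P x) :
    ∃ (b : ι → ℝ) (c : ι → ℕ → ℝ) (E : ι → ℕ → ℝ), Nf d κ x b c E ∧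
      ∀ i n, E i (n + 1) = d * E i n + Real.log (1 + del d a P x i n) := by
  choose b E hE hx hrec using fun i => h.normal hd hκ i
  refine ⟨b, fun i n => x n i / |x n i| * Real.exp (-(Real.log |a i| / (d - 1))), E,
    ⟨fun i n => ?_, fun i n => ?_, fun n i => ?_, hE⟩, hrec⟩
  · exact mul_ne_zero (div_ne_zero (h.ne n i) (abs_ne_zero.mpr (h.ne n i))) (Real.exp_ne_zero _)
  · rw [h.per]
  · rw [Real.exp_add, mul_assoc, ← mul_assoc (Real.exp (-(Real.log |a i| / (d - 1)))), ← hx i n]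
    have := abs_ne_zero.mpr (h.ne n i)
    field_simp

theorem Orb.err_ap (hd : 2 ≤ d) (hκ : 0 < κ) (h : Orb d κ a P x) {b : ι → ℝ} {c : ι → ℕ → ℝ}
    {E : ι → ℕ → ℝ} (hN : Nf d κ x b c E)
    (hrec : ∀ i n, E i (n + 1) = d * E i n + Real.log (1 + del d a P x i n)) (k : ℕ) :
    ∀ j, Ap d ((k + 1) * κ) (E j) := by
  classical
  have hd1 : (2 : ℝ) ≤ d := by exact_mod_cast hd
  have hd0 : (d : ℝ) ≠ 0 := by linarith
  induction k with
  | zero =>
    intro j
    have := Ap.of_bd (hN.E_bd j)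
    simpa using this
  | succ k ih =>
    intro i
    set M : ℝ := (k + 1) * κ with hM
    have hk0 : (0 : ℝ) ≤ k := Nat.cast_nonneg k
    have hMκ : κ ≤ M := by nlinarith
    have hM0 : 0 ≤ M := by linarith
    have hdel : Ap d (M + κ) (del d a P x i) := by
      have h1 : del d a P x i = fun n => ∑ β ∈ (P i).support,
          ((P i).coeff β / a i) *
            (∏ j, x n j ^ ((β j : ℤ) - if j = i then (d : ℤ) else 0)) := by
        funext n
        rw [h.del_eq i n]
        refine sum_congr rfl fun β _ => ?_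
        rw [ratio_zpow (h.ne n)]
      rw [h1]
      refine Ap.sum _ fun β hβ => Ap.const_mul _ ?_
      have h2 := h.dom i β hβ
      simp only [ratio_zpow (h.ne _)] at h2
      have h3 := hN.exp_le hd hκ _ h2
      have h4 := hN.mono_ap hd hκ hM0 ih (fun j => (β j : ℤ) - if j = i then (d : ℤ) else 0)
      exact h4.mono hd (by linarith)
    have hlog := (Ok.analytic hd hκ (by linarith : 0 ≤ M + κ)
      (φ := fun t => Real.log (1 + t)) ((analyticAt_const.add analyticAt_id).log (by norm_num))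
      (h.del_bd i) hdel).2
    have hsh : Ap d (M + κ) (fun n => E i (n + 1)) :=
      ((ih i).shift hd).mono hd (by nlinarith)
    have h5 : Ap d (M + κ) (fun n => (1 / (d : ℝ)) *
        (E i (n + 1) + (-1) * Real.log (1 + del d a P x i n))) :=
      (hsh.add (hlog.const_mul (-1))).const_mul _
    have h6 : (fun n => (1 / (d : ℝ)) *
        (E i (n + 1) + (-1) * Real.log (1 + del d a P x i n))) = E i := by
      funext n
      rw [hrec]
      field_simp
      ring
    rw [h6] at h5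
    have h7 : M + κ = ((k + 1 : ℕ) + 1 : ℝ) * κ := by
      push_cast
      rw [hM]
      ring
    rwa [h7] at h5

/-- **Expansion theorem.** Polynomials along a dominated orbit have asymptotic expansions. -/
theorem Orb.expansion (hd : 2 ≤ d) (hκ : 0 < κ) (h : Orb d κ a P x) (g : MvPolynomial ι ℝ)
    (M : ℝ) : Ap d M (fun n => MvPolynomial.eval (x n) g) := by
  classical
  obtain ⟨b, c, E, hN, hrec⟩ := h.exists_nf hd hκ
  have hE := h.err_ap hd hκ hN hrec
  simp only [MvPolynomial.eval_eq']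
  refine Ap.sum _ fun γ _ => Ap.const_mul _ ?_
  obtain ⟨k, hk⟩ := exists_nat_ge ((M + ∑ j, (γ j : ℝ) * b j) / κ)
  have hk' : M + ∑ j, (γ j : ℝ) * b j ≤ (k + 1) * κ := by
    rw [div_le_iff₀ hκ] at hk
    nlinarith
  have h1 := hN.mono_ap hd hκ (by positivity : (0 : ℝ) ≤ (k + 1) * κ) (hE k)
    (fun j => (γ j : ℤ))
  simp only [zpow_natCast, Int.cast_natCast] at h1
  exact h1.mono hd (by linarith)

/-- **The alternative.** Along a parity class, a sequence with expansions of all orders is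
eventually nonzero or smaller than all exponentials. -/
theorem alternative (hd : 2 ≤ d) {z : ℕ → ℝ} (hz : ∀ M, Ap d M z) (r : ℕ) :
    (∀ᶠ n in atTop, n % 2 = r % 2 → z n ≠ 0) ∨
      ∀ M : ℝ, ∃ C, ∀ n, n % 2 = r % 2 → |z n| ≤ C * Real.exp (-M * (d : ℝ) ^ n) := by
  by_contra hcon
  push Not at hcon
  obtain ⟨h1, M, h2⟩ := hcon
  obtain ⟨e, he, hze⟩ := hz M
  obtain ⟨f, hf, hef⟩ := he r
  rcases hf.alt hd M with h3 | ⟨ω, hω, c, hc, h3⟩
  · obtain ⟨C, hC, h3⟩ := h3
    obtain ⟨C', hC', h4⟩ := hze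
    obtain ⟨n, hn, h5⟩ := h2 (C' + C)
    have h6 := h4 n
    have h7 := h3 n
    rw [← hef n hn] at h7
    have h8 : |z n| ≤ |z n - e n| + |e n| := by
      calc |z n| = |(z n - e n) + e n| := by ring_nf
        _ ≤ _ := abs_add_le _ _
    linarith
  · apply h1
    have h4 : Bd d (-M - ω) (fun n => (z n - e n) * Real.exp (-(ω * (d : ℝ) ^ n))) := by
      have h5 := hze.mul (Bd.exp (d := d) (-ω))
      simpa [sub_eq_add_neg] using h5
    have h5 := h4.tendsto_zero hd (by linarith)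
    have h6 : ∀ᶠ n in atTop, |f n * Real.exp (-(ω * (d : ℝ) ^ n)) - c| < |c| / 2 := by
      have := (Metric.tendsto_nhds.mp h3) (|c| / 2) (by positivity)
      simpa [Real.dist_eq] using this
    have h7 : ∀ᶠ n in atTop, |(z n - e n) * Real.exp (-(ω * (d : ℝ) ^ n))| < |c| / 2 := by
      have := (Metric.tendsto_nhds.mp h5) (|c| / 2) (by positivity)
      simpa [Real.dist_eq] using this
    filter_upwards [h6, h7] with n h8 h9 hn
    obtain ⟨hn, h0⟩ := hn
    rw [h0, hef n hn] at h9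
    have h10 : |c| ≤ |f n * Real.exp (-(ω * (d : ℝ) ^ n)) - c| +
        |(0 - f n) * Real.exp (-(ω * (d : ℝ) ^ n))| := by
      have : c = -(f n * Real.exp (-(ω * (d : ℝ) ^ n)) - c) -
        (0 - f n) * Real.exp (-(ω * (d : ℝ) ^ n)) := by ring
      calc |c| = |-(f n * Real.exp (-(ω * (d : ℝ) ^ n)) - c) -
          (0 - f n) * Real.exp (-(ω * (d : ℝ) ^ n))| := by rw [← this]
        _ ≤ |-(f n * Real.exp (-(ω * (d : ℝ) ^ n)) - c)| +
          |(0 - f n) * Real.exp (-(ω * (d : ℝ) ^ n))| := abs_sub _ _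
        _ = _ := by rw [abs_neg]
    linarith

end

end Pool.Agent.TH166.DMR
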