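import Pool.Agent.TH166.DMR.Ap

/-!
# Dominated orbits: logarithmic coordinates and asymptotic expansions
-/

set_option autoImplicit false

open Filter Topology Finset Asymptotics

namespace Pool.Agent.TH166.DMR

section
variable {d : ℕ}

/-- limits of rapidly converging sequences -/
lemma exists_limit (hd : 2 ≤ d) {u : ℕ → ℝ} {κ C : ℝ} (hκ : 0 ≤ κ) (hC : 0 ≤ C)
    (h : ∀ n, |u (n + 1) - u n| ≤ C * Real.exp (-κ * (d : ℝ) ^ n) / (d : ℝ) ^ (n + 1)) :
    ∃ b, ∀ n, |u n - b| ≤ C * Real.exp (-κ * (d : ℝ) ^ n) / (d : ℝ) ^ n := by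
  have hd1 : (2 : ℝ) ≤ d := by exact_mod_cast hd
  have hd0 : (0 : ℝ) < d := by linarith
  have hr : (1 / (d : ℝ)) < 1 := by rw [div_lt_one hd0]; linarith
  have hstep : ∀ n k, dist (u (n + k)) (u (n + k + 1)) ≤
      (C * Real.exp (-κ * (d : ℝ) ^ n) / (d : ℝ) ^ (n + 1)) * (1 / (d : ℝ)) ^ k := by
    intro n k
    rw [dist_comm, Real.dist_eq]
    refine (h (n + k)).trans ?_
    rw [div_mul_eq_mul_div, div_pow, one_pow, mul_one_div, div_div]
    have h1 : (d : ℝ) ^ (n + k + 1) = (d : ℝ) ^ k * (d : ℝ) ^ (n + 1) := by ring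
    rw [h1]
    have h2 : (d : ℝ) ^ n ≤ (d : ℝ) ^ (n + k) :=
      pow_le_pow_right₀ (by linarith) (Nat.le_add_right _ _)
    have h3 : Real.exp (-κ * (d : ℝ) ^ (n + k)) ≤ Real.exp (-κ * (d : ℝ) ^ n) := by
      apply Real.exp_le_exp.mpr
      nlinarith
    have h4 : (0 : ℝ) < (d : ℝ) ^ k * (d : ℝ) ^ (n + 1) := by positivity
    exact div_le_div_of_nonneg_right (mul_le_mul_of_nonneg_left h3 hC) h4.le
  have hcau : CauchySeq u := by
    refine cauchySeq_of_le_geometric (1 / (d : ℝ))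
      (C * Real.exp (-κ * (d : ℝ) ^ 0) / (d : ℝ) ^ (0 + 1)) hr fun k => ?_
    simpa using hstep 0 k
  obtain ⟨b, hb⟩ := cauchySeq_tendsto_of_complete hcau
  refine ⟨b, fun n => ?_⟩
  have h1 : Tendsto (fun k => u (n + k)) atTop (𝓝 b) := by
    have := (tendsto_add_atTop_iff_nat n).mpr hb
    simpa [add_comm] using this
  have h2 := dist_le_of_le_geometric_of_tendsto₀ (f := fun k => u (n + k)) (1 / (d : ℝ)) _ hr
    (fun k => hstep n k) h1
  rw [Real.dist_eq] at h2
  simp only [add_zero] at h2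
  refine h2.trans ?_
  have h3 : (1 : ℝ) / 2 ≤ 1 - 1 / d := by
    have : (1 : ℝ) / d ≤ 1 / 2 := by
      rw [div_le_div_iff₀ hd0 (by norm_num)]
      linarith
    linarith
  have h4 : (0 : ℝ) < 1 - 1 / d := by linarith
  rw [div_le_iff₀ h4, pow_succ, div_mul_eq_mul_div, div_le_div_iff₀ (by positivity) (by positivity)]
  have h5 : (1 : ℝ) ≤ (1 - 1 / d) * d := by nlinarith
  have h6 : 0 ≤ C * Real.exp (-κ * (d : ℝ) ^ n) := by positivity
  have h7 : 0 < (d : ℝ) ^ n := by positivity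
  calc C * Real.exp (-κ * (d : ℝ) ^ n) * (d : ℝ) ^ n
      = (C * Real.exp (-κ * (d : ℝ) ^ n) * (d : ℝ) ^ n) * 1 := by ring
    _ ≤ (C * Real.exp (-κ * (d : ℝ) ^ n) * (d : ℝ) ^ n) * ((1 - 1 / d) * d) := by gcongr
    _ = _ := by ring

variable {ι : Type} [Fintype ι]

/-- the relative error -/
noncomputable def del (d : ℕ) (a : ι → ℝ) (P : ι → MvPolynomial ι ℝ) (x : ℕ → ι → ℝ) (i : ι)
    (n : ℕ) : ℝ := MvPolynomial.eval (x n) (P i) / (a i * x n i ^ d)

/-- a dominated orbit, with all conditions from the beginning -/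
structure Orb (d : ℕ) (κ : ℝ) (a : ι → ℝ) (P : ι → MvPolynomial ι ℝ) (x : ℕ → ι → ℝ) : Prop where
  hrec : ∀ n i, x (n + 1) i = a i * x n i ^ d + MvPolynomial.eval (x n) (P i)
  ne : ∀ n i, x n i ≠ 0
  a_ne : ∀ i, a i ≠ 0
  dom : ∀ i, ∀ β ∈ (P i).support, Bd d (-κ) (fun n => (∏ j, x n j ^ β j) / x n i ^ d)
  small : ∀ n i, |del d a P x i n| ≤ 1 / 2
  per : ∀ n i, x (n + 2) i / |x (n + 2) i| = x n i / |x n i|

variable {κ : ℝ} {a : ι → ℝ} {P : ι → MvPolynomial ι ℝ} {x : ℕ → ι → ℝ}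

lemma Orb.del_eq (h : Orb d κ a P x) (i : ι) (n : ℕ) : del d a P x i n =
    ∑ β ∈ (P i).support, ((P i).coeff β / a i) * ((∏ j, x n j ^ β j) / x n i ^ d) := by
  rw [del, MvPolynomial.eval_eq', sum_div]
  refine sum_congr rfl fun β _ => ?_
  have := h.a_ne i
  have := h.ne n i
  field_simp

lemma Orb.rec' (h : Orb d κ a P x) (n : ℕ) (i : ι) :
    x (n + 1) i = a i * x n i ^ d * (1 + del d a P x i n) := by
  rw [h.hrec, del]
  have := h.a_ne i
  have := h.ne n i
  field_simp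

lemma Bd.sum {W : ℝ} {α : Type} (S : Finset α) {s : α → ℕ → ℝ}
    (h : ∀ i ∈ S, Bd d W (s i)) : Bd d W (fun n => ∑ i ∈ S, s i n) := by
  classical
  induction S using Finset.induction_on with
  | empty => exact ⟨0, le_rfl, fun n => by simp⟩
  | insert a S ha ih =>
    simp only [sum_insert ha]
    exact (h a (mem_insert_self _ _)).add (ih fun i hi => h i (mem_insert_of_mem hi))

lemma Bd.const_mul {W : ℝ} (c : ℝ) {s : ℕ → ℝ} (h : Bd d W s) : Bd d W (fun n => c * s n) := by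
  simpa using (Bd.const c).mul h

lemma Orb.del_bd (h : Orb d κ a P x) (i : ι) : Bd d (-κ) (del d a P x i) := by
  have h1 : del d a P x i = fun n => ∑ β ∈ (P i).support,
      ((P i).coeff β / a i) * ((∏ j, x n j ^ β j) / x n i ^ d) := funext fun n => h.del_eq i n
  rw [h1]
  exact Bd.sum _ fun β hβ => (h.dom i β hβ).const_mul _

lemma abs_log_le {t : ℝ} (ht : |t| ≤ 1 / 2) : |Real.log (1 + t)| ≤ 2 * |t| := by
  rw [abs_le] at ht
  have h0 : 0 < 1 + t := by linarith
  have h1 := Real.log_le_sub_one_of_pos h0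
  have h2 := Real.one_sub_inv_le_log_of_pos h0
  have h3 : (1 + t)⁻¹ ≤ 2 := by
    rw [inv_le_comm₀ h0 (by norm_num)]
    linarith
  have h4 : 1 - (1 + t)⁻¹ = t * (1 + t)⁻¹ := by field_simp; ring
  rw [h4] at h2
  rw [abs_le]
  have h5 := neg_abs_le t
  have h6 := le_abs_self t
  have h7 : 0 < (1 + t)⁻¹ := by positivity
  have h8 := abs_nonneg t
  constructor
  · nlinarith
  · linarith

/-- logarithmic coordinates -/
theorem Orb.normal (hd : 2 ≤ d) (hκ : 0 < κ) (h : Orb d κ a P x) (i : ι) :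
    ∃ (b : ℝ) (E : ℕ → ℝ), Bd d (-κ) E ∧
      (∀ n, |x n i| = Real.exp (-(Real.log |a i| / (d - 1))) * Real.exp (b * (d : ℝ) ^ n) *
        Real.exp (E n)) ∧
      ∀ n, E (n + 1) = d * E n + Real.log (1 + del d a P x i n) := by
  have hd1 : (2 : ℝ) ≤ d := by exact_mod_cast hd
  have hd0 : (0 : ℝ) < d := by linarith
  have hd2 : (d : ℝ) - 1 ≠ 0 := by
    have : (0 : ℝ) < d - 1 := by linarith
    exact this.ne'
  let L : ℕ → ℝ := fun n => Real.log |x n i| + Real.log |a i| / (d - 1)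
  have hL : ∀ n, L (n + 1) = d * L n + Real.log (1 + del d a P x i n) := by
    intro n
    have h1 := h.rec' n i
    have h2 := abs_le.mp (h.small n i)
    have h3 : 0 < 1 + del d a P x i n := by linarith [h2.1]
    have h4 : 0 < |a i| := abs_pos.mpr (h.a_ne i)
    have h5 : 0 < |x n i| := abs_pos.mpr (h.ne n i)
    simp only [L]
    rw [h1, abs_mul, abs_mul, abs_pow, abs_of_pos h3, Real.log_mul (by positivity) h3.ne',
      Real.log_mul h4.ne' (by positivity), Real.log_pow]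
    field_simp
    ring
  obtain ⟨C, hC, hdel⟩ := h.del_bd i
  obtain ⟨b, hb⟩ := exists_limit hd (u := fun n => L n / (d : ℝ) ^ n) hκ.le
    (by positivity : 0 ≤ 2 * C) (by
      intro n
      have h1 : L (n + 1) / (d : ℝ) ^ (n + 1) - L n / (d : ℝ) ^ n =
          Real.log (1 + del d a P x i n) / (d : ℝ) ^ (n + 1) := by
        rw [hL, pow_succ]
        field_simp
        ring
      rw [h1, abs_div, abs_of_pos (by positivity : (0 : ℝ) < (d : ℝ) ^ (n + 1))]
      gcongr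
      calc |Real.log (1 + del d a P x i n)| ≤ 2 * |del d a P x i n| := abs_log_le (h.small n i)
        _ ≤ 2 * (C * Real.exp (-κ * (d : ℝ) ^ n)) := by
          have := hdel n
          linarith
        _ = _ := by ring)
  refine ⟨b, fun n => L n - b * (d : ℝ) ^ n, ⟨2 * C, by positivity, fun n => ?_⟩,
    fun n => ?_, fun n => ?_⟩
  · have h1 := hb n
    have h2 : L n - b * (d : ℝ) ^ n = (L n / (d : ℝ) ^ n - b) * (d : ℝ) ^ n := by
      have := (dn_pos hd n).ne'
      field_simp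
    have h3 := dn_pos hd n
    beta_reduce
    rw [h2, abs_mul, abs_of_pos h3]
    rw [le_div_iff₀ h3] at h1
    exact h1
  · rw [← Real.exp_add, ← Real.exp_add]
    have h5 : 0 < |x n i| := abs_pos.mpr (h.ne n i)
    rw [← Real.exp_log h5]
    congr 1
    simp only [L]
    ring_nf
  · simp only []
    rw [hL, pow_succ]
    ring

end

end Pool.Agent.TH166.DMR
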