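import Pool.Agent.TH166.DMR.Pts

/-!
# Dominated real points of projective space and counting of integral points
-/

set_option autoImplicit false

open MvPolynomial Filter Topology Finset

namespace Pool.Agent.TH166.DMR

/-- The system `(a_0 X_0^d, a_1 X_1^d + X_0 Q_1, ..., a_N X_N^d + X_0 Q_N)`. -/
noncomputable def sys {R : Type} [CommRing R] {N : ℕ} (d : ℕ) (a : Fin (N + 1) → R)
    (Q : Fin N → MvPolynomial (Fin (N + 1)) R) : Fin (N + 1) → MvPolynomial (Fin (N + 1)) R :=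
  Fin.cons (C (a 0) * X 0 ^ d) (fun i => C (a i.succ) * X i.succ ^ d + X 0 * Q i)

/-- The dynamical Mordell-Lang property of the system of polynomials `F` at the point `α`, with
progressions of difference `0` or `2`: for every set `V` of complex polynomials the set of the `n`
such that the `n`-th iterate of `α` is a common zero of `V` is a finite union of arithmetic
progressions `{a + b k : k ≥ 0}` with `b = 0` or `b = 2`. -/
def DMLAt {m : ℕ} (F : Fin m → MvPolynomial (Fin m) ℂ) (α : Fin m → ℂ) : Prop :=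
  ∀ V : Set (MvPolynomial (Fin m) ℂ), ∃ T : Finset (ℕ × ℕ), (∀ t ∈ T, t.2 = 0 ∨ t.2 = 2) ∧
    {n : ℕ | ∀ g ∈ V, eval ((fun z : Fin m → ℂ => fun i => eval z (F i))^[n] α) g = 0} =
      {n : ℕ | ∃ t ∈ T, ∃ k : ℕ, n = t.1 + t.2 * k}

/-- points dominated at time zero, general version -/
theorem dmlAt_general {m d : ℕ} (hd : 2 ≤ d) {L : Type} [Field L] (σ : L →+* ℂ) (τ : L →+* ℝ)
    (a : Fin m → L) (ha : ∀ j, a j ≠ 0) (P : Fin m → MvPolynomial (Fin m) L) :
    ∃ ρ : ℝ, 0 < ρ ∧ ∀ α : Fin m → L, (∀ j, α j ≠ 0) →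
      (∀ j, ∀ β ∈ (P j).support, ∏ k, |τ (α k)| ^ (β k) ≤ ρ * |τ (α j)| ^ d) →
      DMLAt (fun j => map σ (C (a j) * X j ^ d + P j)) (fun j => σ (α j)) := by
  obtain ⟨ρ, hρ, h⟩ := exists_rho hd τ a ha P
  refine ⟨ρ, hρ, fun α hα hα1 => ?_⟩
  let x : ℕ → Fin m → L := fun n =>
    (fun z : Fin m → L => fun j => eval z (C (a j) * X j ^ d + P j))^[n] α
  have hx : ∀ n j, x (n + 1) j = a j * x n j ^ d + eval (x n) (P j) := by
    intro n j
    simp only [x]
    rw [Function.iterate_succ_apply']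
    simp
  have h1 := h x hx hα (fun j β hβ => by
    have h2 := hα1 j β hβ
    show |τ (∏ k, α k ^ β k)| ≤ ρ * |τ (α j)| ^ d
    rw [map_prod, abs_prod]
    simpa only [map_pow, abs_pow] using h2)
  have horb : ∀ n, (fun z : Fin m → ℂ => fun i => eval z (map σ (C (a i) * X i ^ d + P i)))^[n]
      (fun j => σ (α j)) = fun j => σ (x n j) := by
    intro n
    induction n with
    | zero => rfl
    | succ n ih =>
      rw [Function.iterate_succ_apply', ih]
      funext j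
      rw [eval_homR]
      simp only [x]
      rw [Function.iterate_succ_apply']
  intro V
  obtain ⟨T, hT0, hT⟩ := all_families σ one_le_two h1 V
  refine ⟨T, hT0, ?_⟩
  rw [← hT]
  ext n
  simp only [horb]

/-- points near the hyperplane at infinity -/
theorem dmlAt_sys {N d : ℕ} (hd : 2 ≤ d) {L : Type} [Field L] (σ : L →+* ℂ) (τ : L →+* ℝ)
    (a : Fin (N + 1) → L) (ha : ∀ j, a j ≠ 0)
    (Q : Fin N → MvPolynomial (Fin (N + 1)) L) (hQ : ∀ i, (Q i).IsHomogeneous (d - 1)) :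
    ∃ ρ : ℝ, 0 < ρ ∧ ∀ α : Fin (N + 1) → L, α 0 ≠ 0 →
      (∀ (i : Fin N) (j : Fin (N + 1)),
        |τ (α 0)| * |τ (α j)| ^ (d - 1) ≤ ρ * |τ (α i.succ)| ^ d) →
      DMLAt (fun j => MvPolynomial.map σ (sys d a Q j)) (fun j => σ (α j)) := by
  classical
  let P : Fin (N + 1) → MvPolynomial (Fin (N + 1)) L := Fin.cons 0 (fun i => X 0 * Q i)
  obtain ⟨ρ, hρ, h⟩ := dmlAt_general hd σ τ a ha P
  refine ⟨ρ, hρ, fun α hα0 hα => ?_⟩
  have hne : ∀ j, α j ≠ 0 := by
    intro j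
    refine Fin.cases hα0 (fun i => ?_) j
    intro h0
    have h1 := hα i 0
    rw [h0, map_zero, abs_zero, zero_pow (by omega), mul_zero] at h1
    have h2 : 0 < |τ (α 0)| := abs_pos.mpr ((map_ne_zero τ).mpr hα0)
    have h3 : 0 < |τ (α 0)| * |τ (α 0)| ^ (d - 1) := by positivity
    linarith
  have h1 := h α hne (fun j => by
    refine Fin.cases ?_ (fun i => ?_) j
    · intro β hβ
      simp [P] at hβ
    · intro β hβ
      have hPi : P i.succ = X 0 * Q i := by simp [P]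
      rw [hPi, support_X_mul, Finset.mem_map] at hβ
      obtain ⟨γ, hγ, rfl⟩ := hβ
      have h1' : (addLeftEmbedding (Finsupp.single (0 : Fin (N + 1)) 1)) γ =
        Finsupp.single 0 1 + γ := rfl
      rw [h1']
      have h3 : ∏ k, |τ (α k)| ^ ((Finsupp.single (0 : Fin (N + 1)) 1 + γ :
          Fin (N + 1) →₀ ℕ) k) = |τ (α 0)| * ∏ k, |τ (α k)| ^ (γ k) := by
        simp only [Finsupp.add_apply, pow_add, Finset.prod_mul_distrib]
        congr 1
        rw [Finset.prod_eq_single 0]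
        · simp
        · intro k _ hk
          rw [Finsupp.single_apply, if_neg (Ne.symm hk), pow_zero]
        · intro h; exact absurd (Finset.mem_univ _) h
      rw [h3]
      -- the largest coordinate
      obtain ⟨k0, -, hk0⟩ := Finset.exists_max_image Finset.univ (fun k => |τ (α k)|)
        ⟨0, Finset.mem_univ _⟩
      have hdeg : ∑ k, γ k = d - 1 := by
        have := hQ i (mem_support_iff.mp hγ)
        rw [Finsupp.weight_apply, Finsupp.sum_fintype _ _ (by simp)] at this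
        simpa using this
      have h4 : ∏ k, |τ (α k)| ^ (γ k) ≤ |τ (α k0)| ^ (d - 1) := by
        calc ∏ k, |τ (α k)| ^ (γ k) ≤ ∏ k, |τ (α k0)| ^ (γ k) :=
              Finset.prod_le_prod (fun k _ => by positivity)
                fun k _ => pow_le_pow_left₀ (abs_nonneg _) (hk0 k (Finset.mem_univ _)) _
          _ = |τ (α k0)| ^ (d - 1) := by rw [Finset.prod_pow_eq_pow_sum, hdeg]
      exact le_trans (mul_le_mul_of_nonneg_left h4 (abs_nonneg _)) (hα i k0))
  have e1 : (fun j => MvPolynomial.map σ (sys d a Q j)) =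
      fun j => MvPolynomial.map σ (C (a j) * X j ^ d + P j) := by
    funext j
    congr 1
    refine Fin.cases ?_ (fun i => ?_) j
    · simp [sys, P]
    · simp [sys, P]
  rw [e1]
  exact h1

/-- counting points with a small coordinate -/
theorem count_small (N d : ℕ) (hd : 2 ≤ d) {ρ : ℝ} (hρ : 0 < ρ) : ∃ C : ℝ, ∀ H : ℕ, 1 ≤ H →
    (({x : Fin N → ℤ | (∀ i, |x i| ≤ (H : ℤ)) ∧
      ∃ i, ρ * (|x i| : ℝ) ^ d < (H : ℝ) ^ (d - 1)} : Set (Fin N → ℤ)).ncard : ℝ) ≤
      C * (H : ℝ) ^ ((N : ℝ) - 1 / d) := by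
  classical
  have hd0 : (0 : ℝ) < d := by exact_mod_cast (by omega : 0 < d)
  have hd1 : (1 : ℝ) ≤ d := by exact_mod_cast (by omega : 1 ≤ d)
  set c : ℝ := ρ⁻¹ ^ (1 / (d : ℝ)) with hc
  have hc0 : 0 < c := Real.rpow_pos_of_pos (inv_pos.mpr hρ) _
  refine ⟨N * ((2 * c + 1) * 3 ^ (N - 1)), fun H hH => ?_⟩
  have hH1 : (1 : ℝ) ≤ H := by exact_mod_cast hH
  have hH0 : (0 : ℝ) < H := by linarith
  set R : ℝ := c * (H : ℝ) ^ (1 - 1 / (d : ℝ)) with hR
  have hR0 : 0 ≤ R := by positivity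
  set S : Finset (Fin N → ℤ) := Finset.univ.biUnion (fun i0 : Fin N =>
    Fintype.piFinset (fun i => if i = i0 then Finset.Icc (-⌊R⌋) ⌊R⌋ else
      Finset.Icc (-(H : ℤ)) (H : ℤ))) with hS
  have hsub : {x : Fin N → ℤ | (∀ i, |x i| ≤ (H : ℤ)) ∧
      ∃ i, ρ * (|x i| : ℝ) ^ d < (H : ℝ) ^ (d - 1)} ⊆ (S : Set (Fin N → ℤ)) := by
    rintro x ⟨hx, i0, hi0⟩
    rw [Finset.mem_coe, hS, Finset.mem_biUnion]
    refine ⟨i0, Finset.mem_univ _, ?_⟩
    rw [Fintype.mem_piFinset]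
    intro i
    split_ifs with h
    · rw [h, Finset.mem_Icc, ← abs_le, Int.le_floor]
      push_cast
      -- `|x| ≤ R`
      have h1 : (|x i0| : ℝ) ^ d ≤ R ^ d := by
        have h2 : R ^ d = ρ⁻¹ * (H : ℝ) ^ (d - 1) := by
          rw [hR, mul_pow, hc, ← Real.rpow_natCast (ρ⁻¹ ^ (1 / (d : ℝ))) d,
            ← Real.rpow_mul (inv_pos.mpr hρ).le, one_div_mul_cancel hd0.ne', Real.rpow_one,
            ← Real.rpow_natCast ((H : ℝ) ^ (1 - 1 / (d : ℝ))) d, ← Real.rpow_mul hH0.le,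
            ← Real.rpow_natCast (H : ℝ) (d - 1)]
          congr 2
          rw [Nat.cast_sub (by omega)]
          field_simp
          simp
        rw [h2, ← div_eq_inv_mul, le_div_iff₀ hρ]
        linarith
      exact le_of_pow_le_pow_left₀ (by omega) hR0 h1
    · rw [Finset.mem_Icc, ← abs_le]
      exact hx i
  have hcard : (S.card : ℝ) ≤ N * ((2 * R + 1) * (3 * H) ^ (N - 1)) := by
    have h1 : (S.card : ℝ) ≤ ∑ i0 : Fin N, ((Fintype.piFinset (fun i => if i = i0 then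
        Finset.Icc (-⌊R⌋) ⌊R⌋ else Finset.Icc (-(H : ℤ)) (H : ℤ))).card : ℝ) := by
      have := Finset.card_biUnion_le (s := Finset.univ) (t := fun i0 : Fin N =>
        Fintype.piFinset (fun i => if i = i0 then Finset.Icc (-⌊R⌋) ⌊R⌋ else
          Finset.Icc (-(H : ℤ)) (H : ℤ)))
      exact_mod_cast this
    refine h1.trans ?_
    have h2 : ∀ i0 : Fin N, ((Fintype.piFinset (fun i => if i = i0 then
        Finset.Icc (-⌊R⌋) ⌊R⌋ else Finset.Icc (-(H : ℤ)) (H : ℤ))).card : ℝ) ≤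
        (2 * R + 1) * (3 * H) ^ (N - 1) := by
      intro i0
      rw [Fintype.card_piFinset, ← Finset.mul_prod_erase Finset.univ _ (Finset.mem_univ i0)]
      push_cast
      rw [if_pos rfl]
      have h3 : ∏ i ∈ Finset.univ.erase i0, (((if i = i0 then
          Finset.Icc (-⌊R⌋) ⌊R⌋ else Finset.Icc (-(H : ℤ)) (H : ℤ)).card : ℕ) : ℝ) =
          ∏ i ∈ Finset.univ.erase i0, ((Finset.Icc (-(H : ℤ)) (H : ℤ)).card : ℝ) := by
        refine Finset.prod_congr rfl fun i hi => ?_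
        rw [if_neg (Finset.ne_of_mem_erase hi)]
      rw [h3, Finset.prod_const, Finset.card_erase_of_mem (Finset.mem_univ _), Finset.card_univ,
        Fintype.card_fin]
      have h4 : ((Finset.Icc (-(H : ℤ)) (H : ℤ)).card : ℝ) ≤ 3 * H := by
        rw [Int.card_Icc]
        have h5 : ((H : ℤ) + 1 - -(H : ℤ)).toNat = 2 * H + 1 := by omega
        rw [h5]
        push_cast
        linarith
      have h6 : ((Finset.Icc (-⌊R⌋) ⌊R⌋).card : ℝ) ≤ 2 * R + 1 := by
        rw [Int.card_Icc]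
        have h7 : 0 ≤ ⌊R⌋ := Int.floor_nonneg.mpr hR0
        have h8 : (((⌊R⌋ + 1 - -⌊R⌋).toNat : ℤ) : ℝ) = 2 * (⌊R⌋ : ℝ) + 1 := by
          rw [Int.toNat_of_nonneg (by omega)]
          push_cast
          ring
        have h9 : (((⌊R⌋ + 1 - -⌊R⌋).toNat : ℕ) : ℝ) = 2 * (⌊R⌋ : ℝ) + 1 := by
          rw [← h8]
          norm_cast
        rw [h9]
        have := Int.floor_le R
        linarith
      exact mul_le_mul h6 (pow_le_pow_left₀ (by positivity) h4 _) (by positivity)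
        (by positivity)
    calc ∑ i0 : Fin N, ((Fintype.piFinset (fun i => if i = i0 then
        Finset.Icc (-⌊R⌋) ⌊R⌋ else Finset.Icc (-(H : ℤ)) (H : ℤ))).card : ℝ)
        ≤ ∑ i0 : Fin N, (2 * R + 1) * (3 * H) ^ (N - 1) := Finset.sum_le_sum fun i _ => h2 i
      _ = _ := by simp
  have h1 : (({x : Fin N → ℤ | (∀ i, |x i| ≤ (H : ℤ)) ∧
      ∃ i, ρ * (|x i| : ℝ) ^ d < (H : ℝ) ^ (d - 1)} : Set (Fin N → ℤ)).ncard : ℝ) ≤ S.card := by
    have := Set.ncard_le_ncard hsub S.finite_toSet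
    rw [Set.ncard_coe_finset] at this
    exact_mod_cast this
  refine h1.trans (hcard.trans ?_)
  rcases Nat.eq_zero_or_pos N with hN | hN
  · subst hN
    simp
  have hpow : (1 : ℝ) ≤ (H : ℝ) ^ (1 - 1 / (d : ℝ)) := by
    apply Real.one_le_rpow hH1
    rw [sub_nonneg, div_le_one hd0]
    exact hd1
  have h2 : 2 * R + 1 ≤ (2 * c + 1) * (H : ℝ) ^ (1 - 1 / (d : ℝ)) := by
    rw [hR]
    nlinarith
  have h3 : (H : ℝ) ^ ((N : ℝ) - 1 / d) = (H : ℝ) ^ (1 - 1 / (d : ℝ)) * (H : ℝ) ^ (N - 1) := by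
    rw [← Real.rpow_natCast (H : ℝ) (N - 1), ← Real.rpow_add hH0]
    congr 1
    rw [Nat.cast_sub (by omega)]
    push_cast
    ring
  rw [h3]
  calc (N : ℝ) * ((2 * R + 1) * (3 * H) ^ (N - 1))
      ≤ N * (((2 * c + 1) * (H : ℝ) ^ (1 - 1 / (d : ℝ))) * (3 * H) ^ (N - 1)) := by
        refine mul_le_mul_of_nonneg_left ?_ (Nat.cast_nonneg _)
        exact mul_le_mul_of_nonneg_right h2 (by positivity)
    _ = _ := by
      rw [mul_pow]
      ring

/-- integral points of affine space -/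
theorem count_dml {N d : ℕ} (hd : 2 ≤ d) {L : Type} [Field L] (σ : L →+* ℂ) (τ : L →+* ℝ)
    (a : Fin (N + 1) → L) (ha : ∀ j, a j ≠ 0)
    (Q : Fin N → MvPolynomial (Fin (N + 1)) L) (hQ : ∀ i, (Q i).IsHomogeneous (d - 1)) :
    ∃ C : ℝ, ∀ H : ℕ, 1 ≤ H → (({x : Fin N → ℤ | (∀ i, |x i| ≤ (H : ℤ)) ∧
      ¬ DMLAt (fun j => MvPolynomial.map σ (sys d a Q j))
        (Fin.cons 1 (fun i => (x i : ℂ)))} : Set (Fin N → ℤ)).ncard : ℝ) ≤
      C * (H : ℝ) ^ ((N : ℝ) - 1 / d) := by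
  classical
  obtain ⟨ρ, hρ, h⟩ := dmlAt_sys hd σ τ a ha Q hQ
  obtain ⟨C, hC⟩ := count_small N d hd hρ
  refine ⟨C, fun H hH => le_trans ?_ (hC H hH)⟩
  have hH1 : (1 : ℝ) ≤ H := by exact_mod_cast hH
  have hfin : ({x : Fin N → ℤ | (∀ i, |x i| ≤ (H : ℤ)) ∧
      ∃ i, ρ * (|x i| : ℝ) ^ d < (H : ℝ) ^ (d - 1)} : Set (Fin N → ℤ)).Finite := by
    refine Set.Finite.subset (Fintype.piFinset (fun _ : Fin N =>
      Finset.Icc (-(H : ℤ)) (H : ℤ))).finite_toSet ?_
    rintro x ⟨hx, -⟩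
    rw [Finset.mem_coe, Fintype.mem_piFinset]
    intro i
    rw [Finset.mem_Icc, ← abs_le]
    exact hx i
  have hsub : {x : Fin N → ℤ | (∀ i, |x i| ≤ (H : ℤ)) ∧
      ¬ DMLAt (fun j => MvPolynomial.map σ (sys d a Q j))
        (Fin.cons 1 (fun i => (x i : ℂ)))} ⊆
      {x : Fin N → ℤ | (∀ i, |x i| ≤ (H : ℤ)) ∧
      ∃ i, ρ * (|x i| : ℝ) ^ d < (H : ℝ) ^ (d - 1)} := by
    rintro x ⟨hx, hn⟩
    refine ⟨hx, ?_⟩
    by_contra hcon
    push Not at hcon
    apply hn
    have h1 := h (Fin.cons 1 (fun i => (x i : L))) (by simp) (by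
      intro i j
      rw [Fin.cons_zero, Fin.cons_succ, map_one, abs_one, one_mul, map_intCast]
      refine le_trans ?_ (hcon i)
      refine pow_le_pow_left₀ (abs_nonneg _) ?_ _
      refine Fin.cases ?_ (fun k => ?_) j
      · simpa using hH1
      · rw [Fin.cons_succ, map_intCast]
        have := hx k
        exact_mod_cast this)
    have h2 : (fun j => σ ((Fin.cons 1 (fun i => (x i : L)) : Fin (N + 1) → L) j)) =
        Fin.cons 1 (fun i => (x i : ℂ)) := by
      funext j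
      refine Fin.cases ?_ (fun i => ?_) j
      · simp
      · simp
    rw [h2] at h1
    exact h1
  exact_mod_cast Set.ncard_le_ncard hsub hfin

end Pool.Agent.TH166.DMR
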