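import Pool.Agent.TH166.DMR.Link

/-!
# Real dominated orbits over fields with a real embedding
-/

set_option autoImplicit false

open MvPolynomial Filter Topology

namespace Pool.Agent.TH166.DMR

section
variable {ι : Type} [Fintype ι] [DecidableEq ι] {L : Type} [Field L] {d : ℕ}

omit [Fintype ι] [DecidableEq ι] in
lemma eval_homR {A B : Type} [CommSemiring A] [CommSemiring B] (φ : A →+* B) (x : ι → A)
    (p : MvPolynomial ι A) : eval (fun i => φ (x i)) (map φ p) = φ (eval x p) := by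
  rw [eval_map, ← eval₂_id, hom_eval₂]
  rfl

/-- from the real orbit to polynomials over `L` -/
lemma evper_of_orb (hd : 2 ≤ d) (τ : L →+* ℝ) {a : ι → ℝ} {P : ι → MvPolynomial ι ℝ}
    {y : ℕ → ι → L} {κ : ℝ} (hκ : 0 < κ) (h : Orb d κ a P (fun n i => τ (y n i)))
    (g : MvPolynomial ι L) : EvPer 2 {n | eval (y n) g = 0} := by
  have h1 := h.evperC hd hκ (map (Complex.ofRealHom.comp τ) g)
  have h2 : {n | eval (y n) g = 0} =
      {n | eval (fun i => ((τ (y n i) : ℝ) : ℂ)) (map (Complex.ofRealHom.comp τ) g) = 0} := by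
    ext n
    have h3 : eval (fun i => ((τ (y n i) : ℝ) : ℂ)) (map (Complex.ofRealHom.comp τ) g) =
        (Complex.ofRealHom.comp τ) (eval (y n) g) :=
      eval_homR (Complex.ofRealHom.comp τ) (y n) g
    show eval (y n) g = 0 ↔ _ = 0
    rw [h3]
    exact (map_eq_zero _).symm
  rw [h2]
  exact h1

/-- time zero version: a constant `ρ` such that all orbits which are dominated at time zero have
eventually periodic return sets -/
theorem exists_rho (hd : 2 ≤ d) (τ : L →+* ℝ) (a : ι → L) (ha : ∀ i, a i ≠ 0)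
    (P : ι → MvPolynomial ι L) : ∃ ρ : ℝ, 0 < ρ ∧ ∀ x : ℕ → ι → L,
      (∀ n i, x (n + 1) i = a i * x n i ^ d + eval (x n) (P i)) → (∀ i, x 0 i ≠ 0) →
      (∀ i, ∀ β ∈ (P i).support, |τ (∏ j, x 0 j ^ (β j))| ≤ ρ * |τ (x 0 i)| ^ d) →
      ∀ g : MvPolynomial ι L, EvPer 2 {n | eval (x n) g = 0} := by
  classical
  obtain ⟨K, hK1, hK2, hK3⟩ := exists_K d (fun i => τ (a i)) (fun i => map τ (P i))
  have hK0 : 0 < K := by linarith
  refine ⟨Real.exp (-1) / K, by positivity, fun x hx hx0 hdom g => ?_⟩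
  have ha' : ∀ i, τ (a i) ≠ 0 := fun i => (map_ne_zero τ).mpr (ha i)
  have hx0' : ∀ i, τ (x 0 i) ≠ 0 := fun i => (map_ne_zero τ).mpr (hx0 i)
  have h1 := orb_init (x := fun n i => τ (x n i)) hd ha' hx0'
    (fun n i => by
      rw [hx n i, map_add, map_mul, map_pow, eval_homR τ (x n) (P i)])
    hK1 hK2 hK3
    (fun i β hβ => by
      have hβ' : β ∈ (P i).support := support_map_subset _ _ hβ
      have h2 := hdom i β hβ'
      rw [abs_div, abs_pow]
      have h3 : 0 < |τ (x 0 i)| ^ d := by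
        have := abs_pos.mpr (hx0' i)
        positivity
      rw [map_prod] at h2
      simp only [map_pow] at h2
      rw [← mul_div_assoc, div_le_iff₀ h3]
      calc K * |∏ j, τ (x 0 j) ^ β j| ≤ K * (Real.exp (-1) / K * |τ (x 0 i)| ^ d) :=
            mul_le_mul_of_nonneg_left h2 hK0.le
        _ = _ := by field_simp)
  have h2 := evper_of_orb hd τ (y := fun n => x (n + 1)) one_pos h1.2 g
  refine EvPer.shift (m := 1) ?_
  have h3 : {n | 1 + n ∈ {n | eval (x n) g = 0}} = {n | eval (x (n + 1)) g = 0} := by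
    ext n
    show eval (x (1 + n)) g = 0 ↔ eval (x (n + 1)) g = 0
    rw [add_comm]
  rw [h3]
  exact h2

/-- asymptotically dominated orbits -/
theorem evper_tendsto (hd : 2 ≤ d) (τ : L →+* ℝ) (a : ι → L) (ha : ∀ i, a i ≠ 0)
    (P : ι → MvPolynomial ι L) (x : ℕ → ι → L)
    (hx : ∀ n i, x (n + 1) i = a i * x n i ^ d + eval (x n) (P i))
    (hx0 : ∀ᶠ n in atTop, ∀ i, x n i ≠ 0)
    (hdom : ∀ i, ∀ β ∈ (P i).support,
      Tendsto (fun n => |τ (∏ j, x n j ^ (β j))| / |τ (x n i)| ^ d) atTop (𝓝 0))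
    (g : MvPolynomial ι L) : EvPer 2 {n | eval (x n) g = 0} := by
  classical
  obtain ⟨ρ, hρ, h⟩ := exists_rho hd τ a ha P
  have h1 : ∀ᶠ n in atTop, ∀ i, ∀ β ∈ (P i).support,
      |τ (∏ j, x n j ^ (β j))| / |τ (x n i)| ^ d < ρ := by
    rw [eventually_all]
    intro i
    rw [Filter.eventually_all_finset]
    intro β hβ
    exact (hdom i β hβ).eventually_lt_const hρ
  obtain ⟨m, hm0, hm1⟩ := (hx0.and h1).exists
  refine EvPer.shift (m := m) ?_
  refine h (fun n => x (m + n)) (fun n i => hx (m + n) i) hm0 (fun i β hβ => ?_) g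
  have h2 := hm1 i β hβ
  have h3 : 0 < |τ (x m i)| ^ d := by
    have := abs_pos.mpr ((map_ne_zero τ).mpr (hm0 i))
    positivity
  rw [div_lt_iff₀ h3] at h2
  exact h2.le

end

end Pool.Agent.TH166.DMR
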