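import Mathlib

/-!
# Functions of a real variable with asymptotic expansions in the functions `exp (ω t)`
-/

set_option autoImplicit false

open Filter Topology Finset Asymptotics

namespace Pool.Agent.TH166.DMR

/-- `f t = O(exp (W t))` as `t → ∞`. -/
def BdR (W : ℝ) (f : ℝ → ℂ) : Prop := f =O[atTop] fun t : ℝ => Real.exp (W * t)

/-- finite exponential sums -/
def ESR (e : ℝ → ℂ) : Prop :=
  ∃ (S : Finset ℝ) (c : ℝ → ℂ), ∀ t : ℝ, e t = ∑ ω ∈ S, c ω * ((Real.exp (ω * t) : ℝ) : ℂ)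

/-- `f` is approximated up to `O(exp (- M t))` -/
def ApR (M : ℝ) (f : ℝ → ℂ) : Prop := ∃ e, ESR e ∧ BdR (-M) (fun t => f t - e t)

lemma exp_isBigO {W W' : ℝ} (h : W ≤ W') :
    (fun t : ℝ => Real.exp (W * t)) =O[atTop] fun t : ℝ => Real.exp (W' * t) := by
  refine IsBigO.of_bound 1 ?_
  filter_upwards [eventually_ge_atTop (0 : ℝ)] with t ht
  rw [one_mul, Real.norm_eq_abs, Real.norm_eq_abs, Real.abs_exp, Real.abs_exp]
  exact Real.exp_le_exp.mpr (mul_le_mul_of_nonneg_right h ht)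

lemma BdR.mono {W W' : ℝ} {f : ℝ → ℂ} (h : BdR W f) (hW : W ≤ W') : BdR W' f :=
  h.trans (exp_isBigO hW)

lemma BdR.add {W : ℝ} {f g : ℝ → ℂ} (h : BdR W f) (h' : BdR W g) :
    BdR W (fun t => f t + g t) := IsBigO.add h h'

lemma BdR.sub {W : ℝ} {f g : ℝ → ℂ} (h : BdR W f) (h' : BdR W g) :
    BdR W (fun t => f t - g t) := IsBigO.sub h h'

lemma BdR.mul {W W' : ℝ} {f g : ℝ → ℂ} (h : BdR W f) (h' : BdR W' g) :
    BdR (W + W') (fun t => f t * g t) := by
  have h1 : (fun t => f t * g t) =O[atTop] fun t : ℝ => Real.exp (W * t) * Real.exp (W' * t) :=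
    IsBigO.mul h h'
  refine h1.congr_right fun t => ?_
  rw [← Real.exp_add, add_mul]

lemma BdR.const (c : ℂ) : BdR 0 (fun _ => c) :=
  IsBigO.of_bound ‖c‖ (Eventually.of_forall fun t => by simp)

lemma BdR.zero {W : ℝ} : BdR W (fun _ => 0) :=
  IsBigO.of_bound 0 (Eventually.of_forall fun t => by simp)

lemma BdR.const_mul {W : ℝ} (c : ℂ) {f : ℝ → ℂ} (h : BdR W f) : BdR W (fun t => c * f t) := by
  simpa using (BdR.const c).mul h

lemma BdR.exp (ω : ℝ) : BdR ω (fun t => ((Real.exp (ω * t) : ℝ) : ℂ)) :=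
  IsBigO.of_bound 1 (Eventually.of_forall fun t => by rw [Complex.norm_real, one_mul])

lemma BdR.shift {d : ℕ} (hd : 2 ≤ d) {W : ℝ} {f : ℝ → ℂ} (h : BdR W f) :
    BdR (W * d) (fun t => f (d * t)) := by
  have hd0 : (0 : ℝ) < d := by exact_mod_cast (by omega : 0 < d)
  have h1 : Tendsto (fun t : ℝ => (d : ℝ) * t) atTop atTop := tendsto_id.const_mul_atTop hd0
  have h2 := h.comp_tendsto h1
  refine (h2.congr_right fun t => ?_)
  simp only [Function.comp]
  congr 1
  ring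

lemma exp_tendsto {W : ℝ} (hW : W < 0) : Tendsto (fun t : ℝ => Real.exp (W * t)) atTop (𝓝 0) :=
  Real.tendsto_exp_atBot.comp (tendsto_id.const_mul_atTop_of_neg hW)

lemma BdR.tendsto_zero {W : ℝ} (hW : W < 0) {f : ℝ → ℂ} (h : BdR W f) :
    Tendsto f atTop (𝓝 0) := h.trans_tendsto (exp_tendsto hW)

lemma BdR.sum {W : ℝ} {α : Type} (S : Finset α) {s : α → ℝ → ℂ}
    (h : ∀ i ∈ S, BdR W (s i)) : BdR W (fun t => ∑ i ∈ S, s i t) := by
  classical
  induction S using Finset.induction_on with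
  | empty => simpa using BdR.zero
  | insert a S ha ih =>
    simp only [sum_insert ha]
    exact (h a (mem_insert_self _ _)).add (ih fun i hi => h i (mem_insert_of_mem hi))

/-! ### exponential sums -/

lemma ESR.add {e f : ℝ → ℂ} (he : ESR e) (hf : ESR f) : ESR (fun t => e t + f t) := by
  classical
  obtain ⟨S, c, he⟩ := he
  obtain ⟨T, b, hf⟩ := hf
  refine ⟨S ∪ T, fun ω => (if ω ∈ S then c ω else 0) + (if ω ∈ T then b ω else 0), fun n => ?_⟩
  beta_reduce
  rw [he, hf]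
  simp only [add_mul, sum_add_distrib, ite_mul, zero_mul]
  congr 1
  · rw [← sum_filter]
    congr 1
    ext ω
    simp
  · rw [← sum_filter]
    congr 1
    ext ω
    simp

lemma ESR.mul {e f : ℝ → ℂ} (he : ESR e) (hf : ESR f) : ESR (fun t => e t * f t) := by
  classical
  obtain ⟨S, c, he⟩ := he
  obtain ⟨T, b, hf⟩ := hf
  refine ⟨(S ×ˢ T).image (fun p => p.1 + p.2),
    fun ω => ∑ p ∈ (S ×ˢ T).filter (fun p => p.1 + p.2 = ω), c p.1 * b p.2, fun n => ?_⟩
  beta_reduce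
  rw [he, hf, sum_mul_sum, ← sum_product']
  rw [← sum_fiberwise_of_maps_to (g := fun p : ℝ × ℝ => p.1 + p.2)
    (t := (S ×ˢ T).image (fun p => p.1 + p.2)) (fun p hp => mem_image_of_mem _ hp)]
  refine sum_congr rfl fun ω _ => ?_
  rw [sum_mul]
  refine sum_congr rfl fun p hp => ?_
  rw [← (mem_filter.mp hp).2, add_mul, Real.exp_add]
  push_cast
  ring

lemma ESR.exp (c : ℂ) (ω : ℝ) : ESR (fun t => c * ((Real.exp (ω * t) : ℝ) : ℂ)) :=
  ⟨{ω}, fun _ => c, fun n => by simp⟩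

lemma ESR.const (c : ℂ) : ESR (fun _ => c) := by
  simpa using ESR.exp c 0

lemma ESR.shift {d : ℕ} (hd : 2 ≤ d) {e : ℝ → ℂ} (he : ESR e) : ESR (fun t => e (d * t)) := by
  classical
  obtain ⟨S, c, he⟩ := he
  have hd0 : (d : ℝ) ≠ 0 := by
    have : (0 : ℝ) < d := by exact_mod_cast (by omega : 0 < d)
    exact this.ne'
  refine ⟨S.image (fun ω => ω * d), fun ω => c (ω / d), fun n => ?_⟩
  beta_reduce
  rw [he, sum_image (fun a _ b _ h => mul_right_cancel₀ hd0 h)]
  refine sum_congr rfl fun ω _ => ?_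
  rw [mul_div_assoc, div_self hd0, mul_one, mul_assoc]

/-- the alternative: small, or a leading term -/
lemma ESR.alt {e : ℝ → ℂ} (he : ESR e) (M : ℝ) :
    BdR (-M) e ∨ ∃ ω, -M < ω ∧ ∃ c, c ≠ 0 ∧
      Tendsto (fun t => e t * ((Real.exp (-(ω * t)) : ℝ) : ℂ)) atTop (𝓝 c) := by
  classical
  obtain ⟨S, c, he⟩ := he
  by_cases hS : ∃ ω ∈ S, c ω ≠ 0 ∧ -M < ω
  · right
    let S' := S.filter (fun ω => c ω ≠ 0)
    have hne : S'.Nonempty := by
      obtain ⟨ω, h1, h2, _⟩ := hS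
      exact ⟨ω, mem_filter.mpr ⟨h1, h2⟩⟩
    let ω0 := S'.max' hne
    have h0 : ω0 ∈ S' := max'_mem _ _
    have h0' := mem_filter.mp h0
    refine ⟨ω0, ?_, c ω0, h0'.2, ?_⟩
    · obtain ⟨ω, h1, h2, h3⟩ := hS
      exact lt_of_lt_of_le h3 (le_max' S' ω (mem_filter.mpr ⟨h1, h2⟩))
    · have h1 : ∀ t : ℝ, e t * ((Real.exp (-(ω0 * t)) : ℝ) : ℂ) =
          ∑ ω ∈ S, c ω * ((Real.exp ((ω - ω0) * t) : ℝ) : ℂ) := by
        intro t
        rw [he, sum_mul]
        refine sum_congr rfl fun ω _ => ?_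
        rw [mul_assoc, ← Complex.ofReal_mul, ← Real.exp_add]
        congr 3
        ring
      simp only [h1]
      have h2 : Tendsto (fun t : ℝ => ∑ ω ∈ S, c ω * ((Real.exp ((ω - ω0) * t) : ℝ) : ℂ)) atTop
          (𝓝 (∑ ω ∈ S, if ω = ω0 then c ω0 else 0)) := by
        refine tendsto_finsetSum _ fun ω hω => ?_
        by_cases h3 : ω = ω0
        · subst h3
          simp
        · rw [if_neg h3]
          by_cases h4 : c ω = 0
          · simp [h4]
          · have h5 : ω - ω0 < 0 := by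
              have h6 : ω ≤ ω0 := le_max' S' ω (mem_filter.mpr ⟨hω, h4⟩)
              have h7 := lt_of_le_of_ne h6 h3
              linarith
            have h6 := (BdR.exp (ω - ω0)).tendsto_zero h5
            simpa using h6.const_mul (c ω)
      rwa [sum_ite_eq' S ω0 (fun _ => c ω0), if_pos h0'.1] at h2
  · left
    push Not at hS
    have h : BdR (-M) (fun t => ∑ ω ∈ S, c ω * ((Real.exp (ω * t) : ℝ) : ℂ)) := by
      refine BdR.sum S fun ω hω => ?_
      by_cases hc : c ω = 0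
      · simpa [hc] using BdR.zero
      · exact ((BdR.exp ω).const_mul (c ω)).mono (hS ω hω hc)
    have he' : e = fun t => ∑ ω ∈ S, c ω * ((Real.exp (ω * t) : ℝ) : ℂ) := funext he
    rw [he']
    exact h

/-! ### approximations -/

lemma ApR.mono {M M' : ℝ} {s : ℝ → ℂ} (h : ApR M s) (hM : M' ≤ M) : ApR M' s := by
  obtain ⟨e, he, h⟩ := h
  exact ⟨e, he, h.mono (by linarith)⟩

lemma ApR.of_es {M : ℝ} {e : ℝ → ℂ} (he : ESR e) : ApR M e :=
  ⟨e, he, by simpa using BdR.zero⟩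

lemma ApR.of_bd {M : ℝ} {s : ℝ → ℂ} (h : BdR (-M) s) : ApR M s :=
  ⟨fun _ => 0, ESR.const 0, by simpa using h⟩

lemma ApR.add {M : ℝ} {s t : ℝ → ℂ} (h : ApR M s) (h' : ApR M t) :
    ApR M (fun n => s n + t n) := by
  obtain ⟨e, he, h⟩ := h
  obtain ⟨f, hf, h'⟩ := h'
  refine ⟨_, he.add hf, ?_⟩
  have h1 := h.add h'
  refine (iff_of_eq ?_).mp h1
  congr 1
  funext n
  ring

lemma ApR.shift {d : ℕ} (hd : 2 ≤ d) {M : ℝ} {s : ℝ → ℂ} (h : ApR M s) :
    ApR (M * d) (fun t => s (d * t)) := by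
  obtain ⟨e, he, h⟩ := h
  refine ⟨_, he.shift hd, ?_⟩
  have h1 := h.shift hd
  rwa [neg_mul] at h1

/-- product with an exponential -/
lemma ApR.mul_exp {M : ℝ} {s : ℝ → ℂ} (h : ApR M s) (ω : ℝ) :
    ApR (M - ω) (fun t => ((Real.exp (ω * t) : ℝ) : ℂ) * s t) := by
  obtain ⟨e, he, h⟩ := h
  refine ⟨_, (by simpa using ESR.exp 1 ω : ESR
    (fun t => ((Real.exp (ω * t) : ℝ) : ℂ))).mul he, ?_⟩
  have h1 := (BdR.exp ω).mul h
  rw [show -(M - ω) = ω + -M by ring]
  refine (iff_of_eq ?_).mp h1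
  congr 1
  funext n
  ring

lemma ApR.const_mul {M : ℝ} (a : ℂ) {s : ℝ → ℂ} (h : ApR M s) : ApR M (fun n => a * s n) := by
  obtain ⟨e, he, h⟩ := h
  refine ⟨_, (ESR.const a).mul he, ?_⟩
  have h1 := h.const_mul a
  refine (iff_of_eq ?_).mp h1
  congr 1
  funext n
  ring

lemma ApR.sum {M : ℝ} {ι : Type} (S : Finset ι) {s : ι → ℝ → ℂ}
    (h : ∀ i ∈ S, ApR M (s i)) : ApR M (fun n => ∑ i ∈ S, s i n) := by
  classical
  induction S using Finset.induction_on with
  | empty => simpa using ApR.of_es (M := M) (ESR.const 0)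
  | insert a S ha ih =>
    simp only [sum_insert ha]
    exact (h a (mem_insert_self _ _)).add (ih fun i hi => h i (mem_insert_of_mem hi))

/-- bounded and approximable -/
def OkR (M : ℝ) (s : ℝ → ℂ) : Prop := BdR 0 s ∧ ApR M s

lemma OkR.add {M : ℝ} {s t : ℝ → ℂ} (h : OkR M s) (h' : OkR M t) :
    OkR M (fun n => s n + t n) := ⟨h.1.add h'.1, h.2.add h'.2⟩

lemma OkR.mul {M : ℝ} (hM : 0 ≤ M) {s t : ℝ → ℂ} (h : OkR M s) (h' : OkR M t) :
    OkR M (fun n => s n * t n) := by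
  refine ⟨by simpa using h.1.mul h'.1, ?_⟩
  obtain ⟨hs, e, he, h⟩ := h
  obtain ⟨ht, f, hf, h'⟩ := h'
  refine ⟨_, he.mul hf, ?_⟩
  have hf0 : BdR 0 f := by
    have h1 := ht.sub (h'.mono (by linarith : -M ≤ 0))
    simpa using h1
  have h1 := (hs.mul h').add (h.mul hf0 |>.mono (by simp : -M + 0 ≤ 0 + -M))
  rw [zero_add] at h1
  refine (iff_of_eq ?_).mp h1
  congr 1
  funext n
  ring

lemma OkR.const {M : ℝ} (c : ℂ) : OkR M (fun _ => c) :=
  ⟨BdR.const c, ApR.of_es (ESR.const c)⟩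

lemma OkR.pow {M : ℝ} (hM : 0 ≤ M) {s : ℝ → ℂ} (h : OkR M s) (k : ℕ) :
    OkR M (fun n => s n ^ k) := by
  induction k with
  | zero => simpa using OkR.const (M := M) 1
  | succ k ih =>
    simp only [pow_succ]
    exact ih.mul hM h

lemma OkR.poly {M : ℝ} (hM : 0 ≤ M) {s : ℝ → ℂ} (h : OkR M s)
    (Q : Polynomial ℂ) : OkR M (fun n => Q.eval (s n)) := by
  induction Q using Polynomial.induction_on' with
  | add p q hp hq =>
    simp only [Polynomial.eval_add]
    exact hp.add hq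
  | monomial k a =>
    simp only [Polynomial.eval_monomial]
    exact (OkR.const a).mul hM (h.pow hM k)

/-- polynomial approximation of an analytic function -/
lemma exists_polyC {φ : ℂ → ℂ} (hφ : AnalyticAt ℂ φ 0) (K : ℕ) :
    ∃ Q : Polynomial ℂ, (fun t => φ t - Q.eval t) =O[𝓝 0] (fun t => t ^ K) := by
  obtain ⟨p, hp⟩ := hφ
  refine ⟨∑ k ∈ range K, Polynomial.monomial k (p.coeff k), ?_⟩
  have h := hp.isBigO_sub_partialSum_pow K
  simp only [zero_add] at h
  refine IsBigO.trans (g := fun t : ℂ => ‖t‖ ^ K) ?_ ?_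
  · refine h.congr_left fun t => ?_
    congr 1
    rw [FormalMultilinearSeries.partialSum, Polynomial.eval_finsetSum]
    refine sum_congr rfl fun k _ => ?_
    rw [Polynomial.eval_monomial, FormalMultilinearSeries.apply_eq_pow_smul_coeff, smul_eq_mul,
      mul_comm]
  · exact IsBigO.of_bound 1 (Eventually.of_forall fun t => by simp)

lemma BdR.pow {W : ℝ} {f : ℝ → ℂ} (h : BdR W f) (K : ℕ) : BdR (K * W) (fun t => f t ^ K) := by
  induction K with
  | zero => simpa using BdR.const 1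
  | succ k ih =>
    simp only [pow_succ]
    have h1 := ih.mul h
    refine (iff_of_eq ?_).mp h1
    congr 1
    push_cast
    ring

/-- an analytic function of a small approximable function is approximable -/
lemma OkR.analytic {M κ : ℝ} (hκ : 0 < κ) (hM : 0 ≤ M) {φ : ℂ → ℂ}
    (hφ : AnalyticAt ℂ φ 0) {t : ℝ → ℂ} (ht : BdR (-κ) t) (h : ApR M t) :
    OkR M (fun n => φ (t n)) := by
  obtain ⟨K, hK⟩ := exists_nat_ge (M / κ)
  have hK' : M ≤ K * κ := by
    rw [div_le_iff₀ hκ] at hK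
    exact hK
  obtain ⟨Q, hQ⟩ := exists_polyC hφ K
  have ht0 := ht.tendsto_zero (by linarith)
  have ht1 : OkR M t := ⟨ht.mono (by linarith), h⟩
  have hQt := ht1.poly hM Q
  have h1 := hQ.comp_tendsto ht0
  have h2 : BdR (-M) (fun n => φ (t n) - Q.eval (t n)) := by
    have h3 : (fun n => φ (t n) - Q.eval (t n)) =O[atTop] (fun n => t n ^ K) := h1
    have h4 : BdR (K * -κ) (fun n => t n ^ K) := ht.pow K
    exact BdR.mono (IsBigO.trans h3 h4) (by linarith)
  have h3 := hQt.2.add (ApR.of_bd h2)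
  have h4 := hQt.1.add (h2.mono (by linarith : -M ≤ 0))
  refine ⟨?_, ?_⟩
  · refine (iff_of_eq ?_).mp h4
    congr 1
    funext n
    ring
  · refine (iff_of_eq ?_).mp h3
    congr 1
    funext n
    ring

/-- **The alternative.** A function with expansions of all orders has a leading term or is
smaller than all exponentials. -/
theorem alternativeR {z : ℝ → ℂ} (hz : ∀ M, ApR M z) :
    (∀ᶠ t in atTop, z t ≠ 0) ∨ ∀ M : ℝ, BdR (-M) z := by
  by_contra hcon
  push Not at hcon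
  obtain ⟨h1, M, h2⟩ := hcon
  obtain ⟨e, he, hze⟩ := hz M
  rcases he.alt M with h3 | ⟨ω, hω, c, hc, h3⟩
  · apply h2
    have h4 := hze.add h3
    simpa using h4
  · apply h1
    have h4 : BdR (-M - ω) (fun t => (z t - e t) * ((Real.exp (-(ω * t)) : ℝ) : ℂ)) := by
      have h5 := hze.mul (BdR.exp (-ω))
      simpa [sub_eq_add_neg] using h5
    have h5 := h4.tendsto_zero (by linarith)
    have h6 : Tendsto (fun t => z t * ((Real.exp (-(ω * t)) : ℝ) : ℂ)) atTop (𝓝 c) := by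
      have h7 := h5.add h3
      rw [zero_add] at h7
      refine h7.congr fun t => ?_
      ring
    have h7 := h6.eventually_ne hc
    filter_upwards [h7] with t h8 h9
    apply h8
    rw [h9, zero_mul]

end Pool.Agent.TH166.DMR
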